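import Mathlib

/-! Common definitions for the quantitative Faber-Krahn development. -/

open MeasureTheory Metric Set Filter Topology
open scoped ENNReal

namespace Pool.Agent.Helper71.FK

/-- Euclidean space of dimension `N`. -/
abbrev E (N : ℕ) := EuclideanSpace ℝ (Fin N)

/-- volume of the unit ball -/
noncomputable def om (N : ℕ) : ℝ := volume.real (ball (0 : E N) 1)

/-- torsional rigidity of a ball of radius `R` in dimension `N` -/
noncomputable def TB (N : ℕ) (R : ℝ) : ℝ := om N * R ^ (N + 2) / (N * (N + 2))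

/-- `C^1` functions with compact support in `Ω`. -/
structure Tst {N : ℕ} (Ω : Set (E N)) (u : E N → ℝ) : Prop where
  smooth : ContDiff ℝ 1 u
  cpt : HasCompactSupport u
  supp : tsupport u ⊆ Ω

/-- Dirichlet energy -/
noncomputable def dir {N : ℕ} (u : E N → ℝ) : ℝ := ∫ x, ‖gradient u x‖ ^ 2

/-- the torsion functional -/
noncomputable def J {N : ℕ} (u : E N → ℝ) : ℝ := 2 * (∫ x, u x) - dir u

/-- Saint-Venant inequality in dimension `N` -/
def SV (N : ℕ) : Prop :=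
  ∀ (Ω : Set (E N)) (R : ℝ), IsOpen Ω → 0 ≤ R → volume Ω ≤ ENNReal.ofReal (om N * R ^ N) →
    ∀ u : E N → ℝ, Tst Ω u → (∀ x, 0 ≤ u x) → J u ≤ TB N R

/-- functional isoperimetric inequality in dimension `N` -/
def IP (N : ℕ) : Prop :=
  ∀ (Ω : Set (E N)) (R : ℝ), IsOpen Ω → 0 ≤ R → volume Ω ≤ ENNReal.ofReal (om N * R ^ N) →
    ∀ u : E N → ℝ, Tst Ω u → (∀ x, 0 ≤ u x) →
      N * (∫ x, u x) ≤ R * ∫ x, ‖gradient u x‖

/-- A torsion function `w` of `Ω` together with its gradient `g`, given as a limit. -/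
structure Pair {N : ℕ} (Ω : Set (E N)) (u : ℕ → E N → ℝ) (w : E N → ℝ) (g : E N → E N) :
    Prop where
  isOpen : IsOpen Ω
  fin : volume Ω ≠ ∞
  tst : ∀ k, Tst Ω (u k)
  upos : ∀ k x, 0 ≤ u k x
  wm : Measurable w
  gm : Measurable g
  wpos : ∀ x, 0 ≤ w x
  w0 : ∀ x, x ∉ Ω → w x = 0
  g0 : ∀ x, x ∉ Ω → g x = 0
  wint : Integrable w
  gint : Integrable (fun x => ‖g x‖ ^ 2)
  limw : Tendsto (fun k => ∫ x, |u k x - w x|) atTop (𝓝 0)
  limg : Tendsto (fun k => ∫ x, ‖gradient (u k) x - g x‖ ^ 2) atTop (𝓝 0)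
  limae : ∀ᵐ x, Tendsto (fun k => u k x) atTop (𝓝 (w x))
  max : ∀ φ, Tst Ω φ → J φ ≤ 2 * (∫ x, w x) - ∫ x, ‖g x‖ ^ 2

end Pool.Agent.Helper71.FK
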