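import Pool.Agent.Helper71.FK.Slice

open MeasureTheory Metric Set Filter Topology
open scoped ENNReal

namespace Pool.Agent.Helper71.FK

lemma om_pos (N : ℕ) : 0 < om N := by
  unfold om
  refine ENNReal.toReal_pos ?_ measure_ball_lt_top.ne
  exact (measure_ball_pos volume _ one_pos).ne'

lemma nontriv {N : ℕ} (hN : 1 ≤ N) : Nontrivial (E N) := by
  obtain ⟨n, rfl⟩ : ∃ n, N = n + 1 := ⟨N - 1, by omega⟩
  infer_instance

lemma vol_ball {N : ℕ} (hN : 1 ≤ N) (x : E N) {r : ℝ} (hr : 0 ≤ r) :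
    volume (ball x r) = ENNReal.ofReal (om N * r ^ N) := by
  have := nontriv hN
  rw [Measure.addHaar_ball volume x hr, finrank_euclideanSpace, Fintype.card_fin, om,
    Measure.real, mul_comm, ENNReal.ofReal_mul ENNReal.toReal_nonneg,
    ENNReal.ofReal_toReal measure_ball_lt_top.ne]

lemma vol_ball_real {N : ℕ} (hN : 1 ≤ N) (x : E N) {r : ℝ} (hr : 0 ≤ r) :
    volume.real (ball x r) = om N * r ^ N := by
  rw [Measure.real, vol_ball hN x hr, ENNReal.toReal_ofReal]
  have := om_pos N
  positivity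

lemma integral_norm_sq_ball (N : ℕ) {R : ℝ} (hR : 0 ≤ R) :
    ∫ x in ball (0 : E N) R, ‖x‖ ^ 2 = N * om N * R ^ (N + 2) / (N + 2) := by
  rcases Nat.eq_zero_or_pos N with rfl | hN
  · have h0 : ∀ x : E 0, ‖x‖ ^ 2 = 0 := fun x => by
      rw [Subsingleton.elim x 0]; simp
    simp only [h0, integral_zero]
    simp
  have := nontriv hN
  have h1 : ∫ x in ball (0 : E N) R, ‖x‖ ^ 2 =
      ∫ x : E N, (Iio R).indicator (fun t => t ^ 2) ‖x‖ := by
    rw [← integral_indicator measurableSet_ball]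
    congr 1
    funext x
    simp only [indicator, mem_ball_zero_iff, mem_Iio]
  rw [h1, integral_fun_norm_addHaar volume, finrank_euclideanSpace, Fintype.card_fin]
  have h2 : ∫ y in Ioi (0:ℝ), y ^ (N - 1) • (Iio R).indicator (fun t => t ^ 2) y =
      R ^ (N + 2) / (N + 2) := by
    have h3 : ∀ y : ℝ, y ^ (N - 1) • (Iio R).indicator (fun t => t ^ 2) y =
        (Iio R).indicator (fun t => t ^ (N + 1)) y := by
      intro y
      by_cases hy : y < R
      · simp only [indicator, mem_Iio, hy, if_true, smul_eq_mul, ← pow_add]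
        congr 1
        omega
      · simp [indicator, hy]
    simp_rw [h3]
    rw [setIntegral_indicator measurableSet_Iio, Ioi_inter_Iio,
      ← integral_Ioc_eq_integral_Ioo, ← intervalIntegral.integral_of_le hR, integral_pow]
    push_cast
    rw [zero_pow (by omega)]
    ring
  rw [h2, ← om.eq_1, nsmul_eq_mul, smul_eq_mul]
  ring

/-- slices of the ball -/
lemma slice_ball {n : ℕ} (i : Fin (n + 1)) (R t : ℝ) (hR : 0 ≤ R) :
    {y : E n | ins i t y ∈ ball (0 : E (n + 1)) R} = ball 0 (Real.sqrt (R ^ 2 - t ^ 2)) := by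
  ext y
  change ins i t y ∈ ball (0 : E (n + 1)) R ↔ _
  simp only [mem_ball_zero_iff]
  rw [Real.lt_sqrt (norm_nonneg _), ← abs_of_nonneg (norm_nonneg (ins i t y)), ← abs_of_nonneg hR,
    ← sq_lt_sq, norm_ins_sq, abs_of_nonneg hR]
  constructor <;> intro h <;> linarith

/-- slice volume of the ball -/
noncomputable def bt (n : ℕ) (R : ℝ) : ℝ → ℝ :=
  (Ioo (-R) R).indicator fun t => om n * Real.sqrt (R ^ 2 - t ^ 2) ^ n

lemma bt_measurable (n : ℕ) (R : ℝ) : Measurable (bt n R) := by
  unfold bt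
  refine Measurable.indicator ?_ measurableSet_Ioo
  fun_prop

lemma bt_eq {n : ℕ} {R t : ℝ} (ht : t ∈ Ioo (-R) R) :
    bt n R t = om n * Real.sqrt (R ^ 2 - t ^ 2) ^ n := indicator_of_mem ht _

lemma bt_continuousOn (n : ℕ) (R : ℝ) : ContinuousOn (bt n R) (Ioo (-R) R) := by
  refine ContinuousOn.congr (f := fun t => om n * Real.sqrt (R ^ 2 - t ^ 2) ^ n) ?_
    fun t ht => bt_eq ht
  fun_prop

lemma bt_nonneg (n : ℕ) (R t : ℝ) : 0 ≤ bt n R t := by
  have := om_pos n
  unfold bt
  refine indicator_nonneg (fun t _ => ?_) t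
  positivity

lemma sqrt_pos_of_mem {R t : ℝ} (ht : t ∈ Ioo (-R) R) : 0 < Real.sqrt (R ^ 2 - t ^ 2) := by
  apply Real.sqrt_pos.2
  nlinarith [ht.1, ht.2]

lemma bt_pos (n : ℕ) {R t : ℝ} (ht : t ∈ Ioo (-R) R) : 0 < bt n R t := by
  have := om_pos n
  have := sqrt_pos_of_mem ht
  rw [bt_eq ht]
  positivity

lemma bt_zero {n : ℕ} {R t : ℝ} (ht : t ∉ Ioo (-R) R) :
    bt n R t = 0 := indicator_of_notMem ht _

lemma bt_integrable (n : ℕ) (R : ℝ) : Integrable (bt n R) := by
  unfold bt
  rw [integrable_indicator_iff measurableSet_Ioo]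
  have hc : Continuous fun t : ℝ => om n * Real.sqrt (R ^ 2 - t ^ 2) ^ n := by fun_prop
  exact (hc.continuousOn.integrableOn_compact (isCompact_Icc (a := -R) (b := R))).mono_set
    Ioo_subset_Icc_self

lemma vol_ball_pos {N : ℕ} (x : E N) {r : ℝ} (hr : 0 < r) :
    volume (ball x r) = ENNReal.ofReal (om N * r ^ N) := by
  rw [Measure.addHaar_ball_of_pos volume x hr, finrank_euclideanSpace, Fintype.card_fin, om,
    Measure.real, mul_comm, ENNReal.ofReal_mul ENNReal.toReal_nonneg,
    ENNReal.ofReal_toReal measure_ball_lt_top.ne]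

lemma vol_slice_ball {n : ℕ} (i : Fin (n + 1)) {R : ℝ} (hR : 0 ≤ R) (t : ℝ) :
    volume {y : E n | ins i t y ∈ ball (0 : E (n + 1)) R} = ENNReal.ofReal (bt n R t) := by
  rw [slice_ball i R t hR]
  by_cases ht : t ∈ Ioo (-R) R
  · rw [vol_ball_pos _ (sqrt_pos_of_mem ht), bt_eq ht]
  · have h0 : Real.sqrt (R ^ 2 - t ^ 2) = 0 := by
      apply Real.sqrt_eq_zero_of_nonpos
      by_contra h
      push Not at h
      apply ht
      have h2 : |t| < |R| := sq_lt_sq.1 (by linarith)
      rw [abs_of_nonneg hR] at h2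
      exact abs_lt.1 h2
    rw [h0, bt_zero ht]
    simp

lemma integral_bt (n : ℕ) {R : ℝ} (hR : 0 ≤ R) :
    ∫ t, bt n R t = om (n + 1) * R ^ (n + 1) := by
  have h := volume_ins (0 : Fin (n + 1)) (measurableSet_ball (x := (0 : E (n + 1))) (ε := R))
  simp_rw [vol_slice_ball 0 hR] at h
  rw [vol_ball (by omega) _ hR,
    ← ofReal_integral_eq_lintegral_ofReal (bt_integrable n R)
      (Eventually.of_forall (bt_nonneg n R))] at h
  have h1 : 0 ≤ om (n + 1) * R ^ (n + 1) := by
    have := om_pos (n + 1)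
    positivity
  have h2 : 0 ≤ ∫ t, bt n R t := integral_nonneg (bt_nonneg n R)
  exact ((ENNReal.ofReal_eq_ofReal_iff h1 h2).1 h).symm

lemma integral_bt_moment (n : ℕ) {R : ℝ} (hR : 0 ≤ R) :
    ∫ t, bt n R t * (t ^ 2 + n / (n + 2) * (R ^ 2 - t ^ 2)) =
      (n + 1) ^ 2 * TB (n + 1) R := by
  have h := integral_norm_sq_ball (n + 1) hR
  rw [← integral_indicator measurableSet_ball, integral_ins (0 : Fin (n + 1))] at h
  · have h2 : ∀ t : ℝ, ∫ y : E n, (ball (0 : E (n + 1)) R).indicator (fun x => ‖x‖ ^ 2)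
        (ins 0 t y) = bt n R t * (t ^ 2 + n / (n + 2) * (R ^ 2 - t ^ 2)) := by
      intro t
      have h3 : (fun y : E n => (ball (0 : E (n + 1)) R).indicator (fun x => ‖x‖ ^ 2)
        (ins 0 t y)) = (ball (0 : E n) (Real.sqrt (R ^ 2 - t ^ 2))).indicator
          (fun y => t ^ 2 + ‖y‖ ^ 2) := by
        funext y
        have h4 : ins 0 t y ∈ ball (0 : E (n + 1)) R ↔
            y ∈ ball (0 : E n) (Real.sqrt (R ^ 2 - t ^ 2)) := by
          rw [← slice_ball 0 R t hR]; rfl
        by_cases h5 : ins 0 t y ∈ ball (0 : E (n + 1)) R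
        · rw [indicator_of_mem h5, indicator_of_mem (h4.1 h5), norm_ins_sq]
        · rw [indicator_of_notMem h5, indicator_of_notMem (fun h => h5 (h4.2 h))]
      rw [h3, integral_indicator measurableSet_ball]
      have hi : IntegrableOn (fun y : E n => ‖y‖ ^ 2)
          (ball (0 : E n) (Real.sqrt (R ^ 2 - t ^ 2))) :=
        (((continuous_norm.pow 2).continuousOn.integrableOn_compact
          (isCompact_closedBall (0 : E n) (Real.sqrt (R ^ 2 - t ^ 2)))).mono_set
          ball_subset_closedBall)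
      have hfin : IsFiniteMeasure (volume.restrict (ball (0 : E n) (√(R ^ 2 - t ^ 2)))) :=
        ⟨by rw [Measure.restrict_apply_univ]; exact measure_ball_lt_top⟩
      rw [integral_add (integrable_const _) hi, integral_norm_sq_ball n (Real.sqrt_nonneg _),
        setIntegral_const, Measure.real, ← slice_ball 0 R t hR, vol_slice_ball 0 hR t,
        ENNReal.toReal_ofReal (bt_nonneg n R t)]
      by_cases ht : t ∈ Ioo (-R) R
      · have h0 : 0 ≤ R ^ 2 - t ^ 2 := by nlinarith [ht.1, ht.2]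
        have hs := Real.sq_sqrt h0
        rw [bt_eq ht, pow_add, hs, smul_eq_mul]
        have : (n : ℝ) + 2 ≠ 0 := by positivity
        field_simp
        try ring
      · have h0 : R ^ 2 - t ^ 2 ≤ 0 := by
          by_contra h
          push Not at h
          apply ht
          have h2 : |t| < |R| := sq_lt_sq.1 (by linarith)
          rw [abs_of_nonneg hR] at h2
          exact abs_lt.1 h2
        rw [bt_zero ht, Real.sqrt_eq_zero_of_nonpos h0, zero_pow (by omega)]
        simp
    simp_rw [h2] at h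
    rw [h, TB]
    push_cast
    have : (n : ℝ) + 1 ≠ 0 := by positivity
    have : (n : ℝ) + 1 + 2 ≠ 0 := by positivity
    field_simp
  · rw [integrable_indicator_iff measurableSet_ball]
    exact ((continuous_norm.pow 2).continuousOn.integrableOn_compact
          (isCompact_closedBall (0 : E (n + 1)) R)).mono_set ball_subset_closedBall

end Pool.Agent.Helper71.FK
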