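import Pool.Agent.Helper71.FK.Ind

open MeasureTheory Metric Set Filter Topology
open scoped ENNReal

namespace Pool.Agent.Helper71.FK

lemma exists_radius {N : ℕ} (hN : 1 ≤ N) {Ω : Set (E N)} {R : ℝ} (hR : 0 ≤ R)
    (hV : volume Ω ≤ ENNReal.ofReal (om N * R ^ N)) :
    ∃ r, 0 ≤ r ∧ r ≤ R ∧ volume Ω = ENNReal.ofReal (om N * r ^ N) := by
  have ho := om_pos N
  have hfin : volume Ω ≠ ∞ := (hV.trans_lt ENNReal.ofReal_lt_top).ne
  have h0 : 0 ≤ volume.real Ω / om N := div_nonneg measureReal_nonneg ho.le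
  have hrN : ((volume.real Ω / om N) ^ ((N : ℝ)⁻¹)) ^ N = volume.real Ω / om N :=
    Real.rpow_inv_natCast_pow h0 (by omega)
  refine ⟨(volume.real Ω / om N) ^ ((N : ℝ)⁻¹), Real.rpow_nonneg h0 _, ?_, ?_⟩
  · rw [← pow_le_pow_iff_left₀ (Real.rpow_nonneg h0 _) hR (n := N) (by omega), hrN,
      div_le_iff₀ ho, mul_comm]
    exact ENNReal.toReal_le_of_le_ofReal (by positivity) hV
  · rw [hrN, mul_div_cancel₀ _ ho.ne', Measure.real, ENNReal.ofReal_toReal hfin]

lemma Tst.eq_zero_of_empty {N : ℕ} {u : E N → ℝ} {Ω : Set (E N)} (hu : Tst Ω u) (h : Ω = ∅) :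
    u = fun _ => 0 := by
  funext x
  exact hu.zero_of_notMem (by rw [h]; simp)

lemma J_zero {N : ℕ} : J (fun _ : E N => (0 : ℝ)) = 0 := by
  unfold J dir
  simp [gradient]

lemma TB_nonneg (N : ℕ) {R : ℝ} (hR : 0 ≤ R) : 0 ≤ TB N R := by
  have := om_pos N
  unfold TB
  positivity

lemma ae_coord {n : ℕ} (i : Fin n) {P : ℝ → Prop} (h : ∀ᵐ s, P s) : ∀ᵐ x : E n, P (x i) := by
  have h1 := (Measure.quasiMeasurePreserving_eval (fun _ : Fin n => (volume : Measure ℝ)) i).ae h
  exact (EuclideanSpace.volume_preserving_symm_measurableEquiv_toLp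
    (Fin n)).quasiMeasurePreserving.ae h1

namespace Trans

variable {n : ℕ} {i : Fin (n + 1)} {Ω : Set (E (n + 1))} {R : ℝ} {T : ℝ → ℝ}

lemma ins_split (x : E (n + 1)) : ∃ y : E n, ins i (x i) y = x := by
  refine ⟨WithLp.toLp 2 (fun j => x (i.succAbove j)), ?_⟩
  ext k
  refine Fin.succAboveCases i ?_ (fun j => ?_) k <;> simp

lemma ae_Gf (hT : Trans i Ω R T) : ∀ᵐ x, x ∈ Ω → 0 < lam i Ω R T (x i) ∧
    0 ≤ Gf n (lam i Ω R T (x i)) ∧ (n : ℝ) + 1 ≤ lam i Ω R T (x i) +
      n * (mu i Ω R T (x i))⁻¹ := by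
  filter_upwards [ae_coord i hT.ae_slice] with x hx hxΩ
  obtain ⟨y, hy⟩ := ins_split (i := i) x
  have hy' : ins i (x i) y ∈ Ω := by rw [hy]; exact hxΩ
  rcases hx with h | ⟨h1, h2, h3, h4, h5⟩
  · exact absurd hy' (h y)
  · have hl : 0 < lam i Ω R T (x i) := div_pos h2 (bt_pos n h1)
    have hb : (n : ℝ) + 1 ≤ lam i Ω R T (x i) + n * (mu i Ω R T (x i))⁻¹ := by
      rw [← hT.mu_pow hy']
      exact bern h3
    refine ⟨hl, ?_, hb⟩
    have : Gf n (lam i Ω R T (x i)) =
      lam i Ω R T (x i) + n * (mu i Ω R T (x i))⁻¹ - (n + 1) := rfl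
    rw [this]
    linarith

lemma ae_uG (hT : Trans i Ω R T) {u : E (n + 1) → ℝ} (hu : Tst Ω u) (hu0 : ∀ x, 0 ≤ u x) :
    ∀ᵐ x, 0 ≤ u x * Gf n (lam i Ω R T (x i)) := by
  filter_upwards [hT.ae_Gf] with x hx
  by_cases h : x ∈ Ω
  · exact mul_nonneg (hu0 x) (hx h).2.1
  · rw [hu.zero_of_notMem h, zero_mul]

end Trans

theorem SV_step {n : ℕ} (hSV : 1 ≤ n → SV n) : SV (n + 1) := by
  intro Ω R ho hR hV u hu hu0
  obtain ⟨r, hr0, hrR, hrV⟩ := exists_radius (by omega) hR hV
  refine le_trans ?_ (TB_mono hr0 hrR)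
  rcases hr0.eq_or_lt with h | h
  · rw [← h] at hrV
    have he : Ω = ∅ := by
      rw [zero_pow (by omega), mul_zero, ENNReal.ofReal_zero] at hrV
      exact ho.measure_eq_zero_iff volume |>.1 hrV
    rw [hu.eq_zero_of_empty he, J_zero]
    exact TB_nonneg _ hr0
  · obtain ⟨T, hT⟩ := exists_trans (0 : Fin (n + 1)) ho h hrV
    obtain ⟨-, hD⟩ := hT.D_ineq hSV hu hu0
    have h1 : 0 ≤ ∫ x in Ω, (T (x 0) + (n + 1) * gradient u x 0) ^ 2 :=
      integral_nonneg fun x => sq_nonneg _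
    have h2 : 0 ≤ ∫ x, u x * Gf n (Trans.lam 0 Ω r T (x 0)) :=
      integral_nonneg_of_ae (hT.ae_uG hu hu0)
    have h3 : 0 ≤ (n + 1 : ℝ) ^ 2 * (TB (n + 1) r - J u) := by
      refine le_trans ?_ hD
      positivity
    have h4 : 0 ≤ TB (n + 1) r - J u := by
      by_contra h5
      push Not at h5
      have : (n + 1 : ℝ) ^ 2 * (TB (n + 1) r - J u) < 0 :=
        mul_neg_of_pos_of_neg (by positivity) h5
      linarith
    linarith

theorem IP_step {n : ℕ} (hIP : 1 ≤ n → IP n) : IP (n + 1) := by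
  intro Ω R ho hR hV u hu hu0
  obtain ⟨r, hr0, hrR, hrV⟩ := exists_radius (by omega) hR hV
  have hg0 : 0 ≤ ∫ x, ‖gradient u x‖ := integral_nonneg fun x => norm_nonneg _
  refine le_trans ?_ (mul_le_mul_of_nonneg_right hrR hg0)
  rcases hr0.eq_or_lt with h | h
  · rw [← h] at hrV
    have he : Ω = ∅ := by
      rw [zero_pow (by omega), mul_zero, ENNReal.ofReal_zero] at hrV
      exact ho.measure_eq_zero_iff volume |>.1 hrV
    rw [hu.eq_zero_of_empty he, integral_zero, mul_zero]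
    rw [hu.eq_zero_of_empty he] at hg0
    positivity
  · obtain ⟨T, hT⟩ := exists_trans (0 : Fin (n + 1)) ho h hrV
    set i : Fin (n + 1) := 0 with hi
    -- the transversal part of the gradient
    set gp : E (n + 1) → ℝ := fun x => Real.sqrt (‖gradient u x‖ ^ 2 - (gradient u x i) ^ 2)
      with hgp
    have hgps : ∀ s (y : E n), gp (ins i s y) = ‖gradient (fun y => u (ins i s y)) y‖ := by
      intro s y
      have h1 := norm_grad_sq i (hu.differentiable (ins i s y))
      rw [hgp]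
      change Real.sqrt (‖gradient u (ins i s y)‖ ^ 2 - (gradient u (ins i s y) i) ^ 2) = _
      rw [h1, add_sub_cancel_left, Real.sqrt_sq (norm_nonneg _)]
    have hgpc : Continuous gp := by
      have := hu.continuous_grad
      rw [hgp]
      fun_prop
    have hsq : ∀ x, (gradient u x i) ^ 2 + gp x ^ 2 = ‖gradient u x‖ ^ 2 := by
      intro x
      obtain ⟨y, hy⟩ := Trans.ins_split (i := i) x
      rw [← hy, hgps]
      exact (norm_grad_sq i (hu.differentiable _)).symm
    have hgpcs : HasCompactSupport gp := by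
      refine hu.cpt_grad.mono fun x hx => ?_
      rw [Function.mem_support] at hx ⊢
      intro h
      apply hx
      simp [hgp, h]
    have hTc := hT.cont
    have hρc : Continuous fun x : E (n + 1) => Real.sqrt (r ^ 2 - T (x i) ^ 2) * gp x := by
      fun_prop
    have hρi : Integrable fun x : E (n + 1) => Real.sqrt (r ^ 2 - T (x i) ^ 2) * gp x :=
      hρc.integrable_of_hasCompactSupport hgpcs.mul_left
    have hpt : ∀ x, -(T (x i) * gradient u x i) + Real.sqrt (r ^ 2 - T (x i) ^ 2) * gp x ≤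
        r * ‖gradient u x‖ := by
      intro x
      have h1 := Real.sq_sqrt (hT.sq_sub_nonneg (x i))
      have h2 := hsq x
      refine (abs_le_of_sq_le_sq' ?_ (by positivity)).2
      rw [mul_pow, ← h2]
      nlinarith [sq_nonneg (T (x i) * gp x + Real.sqrt (r ^ 2 - T (x i) ^ 2) * gradient u x i)]
    have e1 := hT.integral_T_grad hu hu0
    have hsl := hT.slice_ip hIP hu hu0
    have hρs : ∀ s, ∫ y, Real.sqrt (r ^ 2 - T (ins i s y i) ^ 2) * gp (ins i s y) =
        Real.sqrt (r ^ 2 - T s ^ 2) * ∫ y, ‖gradient (fun y => u (ins i s y)) y‖ := by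
      intro s
      rw [← integral_const_mul]
      congr 1
      funext y
      rw [ins_same, hgps]
    have hgi : Integrable fun s => Real.sqrt (r ^ 2 - T s ^ 2) *
        ∫ y, ‖gradient (fun y => u (ins i s y)) y‖ := by
      refine (integrable_integral_ins i hρi).congr (Eventually.of_forall fun s => ?_)
      exact hρs s
    have hI := hT.integrable_mu_slice hu hu0 hgi hsl
    obtain ⟨hI2, hM⟩ := hT.integrable_mu hu hu0 hI
    have e2 : ∫ x, n * (Trans.mu i Ω r T (x i))⁻¹ * u x ≤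
        ∫ x : E (n + 1), Real.sqrt (r ^ 2 - T (x i) ^ 2) * gp x := by
      rw [hM, integral_ins i hρi]
      simp_rw [hρs]
      exact integral_mono_ae hI hgi hsl
    have hneg : Integrable fun x => -(T (x i) * gradient u x i) := (hT.integrable_T_grad hu).neg
    have e3 : ∫ x, (-(T (x i) * gradient u x i) + Real.sqrt (r ^ 2 - T (x i) ^ 2) * gp x) ≤
        ∫ x, r * ‖gradient u x‖ :=
      integral_mono (hneg.add hρi)
        (hu.integrable_norm_grad.const_mul _) hpt
    rw [integral_add hneg hρi, integral_neg, e1, neg_neg,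
      integral_const_mul] at e3
    have e4 : ∫ x, ((n + 1 : ℝ) * u x) ≤ ∫ x, (Trans.lam i Ω r T (x i) * u x +
        n * (Trans.mu i Ω r T (x i))⁻¹ * u x) := by
      refine integral_mono_ae (hu.integrable.const_mul _) ((hT.integrable_lam hu hu0).add hI2) ?_
      filter_upwards [hT.ae_Gf] with x hx
      change (n + 1 : ℝ) * u x ≤ Trans.lam i Ω r T (x i) * u x +
        n * (Trans.mu i Ω r T (x i))⁻¹ * u x
      by_cases hxΩ : x ∈ Ω
      · have := mul_le_mul_of_nonneg_right (hx hxΩ).2.2 (hu0 x)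
        linarith
      · rw [hu.zero_of_notMem hxΩ]
        simp
    rw [integral_const_mul, integral_add (hT.integrable_lam hu hu0) hI2] at e4
    push_cast
    linarith

theorem SV_all {N : ℕ} (hN : 1 ≤ N) : SV N := by
  obtain ⟨n, rfl⟩ : ∃ n, N = n + 1 := ⟨N - 1, by omega⟩
  clear hN
  induction n with
  | zero => exact SV_step fun h => absurd h (by norm_num)
  | succ n ih => exact SV_step fun _ => ih

theorem IP_all {N : ℕ} (hN : 1 ≤ N) : IP N := by
  obtain ⟨n, rfl⟩ : ∃ n, N = n + 1 := ⟨N - 1, by omega⟩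
  clear hN
  induction n with
  | zero => exact IP_step fun h => absurd h (by norm_num)
  | succ n ih => exact IP_step fun _ => ih

end Pool.Agent.Helper71.FK
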