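import Pool.Agent.Helper64.FK.InnerJ

open MeasureTheory Metric Set Filter Topology
open scoped ENNReal ContDiff

namespace Pool.Agent.Helper71.FKFinal

open Pool.Agent.Helper71.FK Pool.Agent.Helper64.FKI

lemma numA {N : ℕ} (hN : 2 ≤ N) : 1 / bh N ^ 2 ≤ 9.45 * (N : ℝ) ^ 2 * (8 * N) ^ (N + 1) := by
  have hN0 : (2 : ℝ) ≤ N := by exact_mod_cast hN
  have hb := bh_pos hN
  have hx0 : 0 < 1 - aa N ^ 2 := one_sub_aa_sq_pos hN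
  rw [div_le_iff₀ (by positivity)]
  have h1 : bh N ^ 2 = (1 - aa N ^ 2) ^ (N + 1) / (4 * (N + 1) ^ 2) := by
    unfold bh
    rw [div_pow, ← pow_mul, mul_comm (N + 1) 2, pow_mul, Real.sq_sqrt hx0.le]
    ring
  have h2 : (1 - aa N ^ 2) * (8 * N) = 1 - 1 / (32 * N) := by
    unfold aa
    field_simp
    ring
  have h3 : (61 : ℝ) / 64 ≤ ((1 - aa N ^ 2) * (8 * N)) ^ (N + 1) := by
    rw [h2]
    have h4 := one_add_mul_le_pow (a := -(1 / (32 * (N : ℝ)))) (by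
      have : 1 / (32 * (N : ℝ)) ≤ 1 := by
        rw [div_le_one (by positivity)]; linarith
      linarith) (N + 1)
    rw [← sub_eq_add_neg] at h4
    refine le_trans ?_ h4
    push_cast
    have h5 : ((N : ℝ) + 1) * (1 / (32 * N)) ≤ 3 / 64 := by
      rw [mul_one_div, div_le_div_iff₀ (by positivity) (by norm_num)]
      linarith
    linarith
  rw [h1]
  have h6 : 9.45 * (N : ℝ) ^ 2 * (8 * N) ^ (N + 1) * ((1 - aa N ^ 2) ^ (N + 1) / (4 * (N + 1) ^ 2)) =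
      9.45 * (N : ℝ) ^ 2 / (4 * (N + 1) ^ 2) * ((1 - aa N ^ 2) * (8 * N)) ^ (N + 1) := by
    rw [mul_pow (1 - aa N ^ 2) (8 * (N : ℝ))]; ring
  rw [h6]
  have h7 : (1.05 : ℝ) ≤ 9.45 * (N : ℝ) ^ 2 / (4 * (N + 1) ^ 2) := by
    rw [le_div_iff₀ (by positivity)]
    nlinarith
  calc (1 : ℝ) ≤ 1.05 * (61 / 64) := by norm_num
    _ ≤ _ := by gcongr

lemma numD {N : ℕ} (hN : 2 ≤ N) : 18.9 * (N : ℝ) ^ 3 ≤ 12.5 ^ (N + 1) := by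
  induction N, hN using Nat.le_induction with
  | base => norm_num
  | succ n hn ih =>
    have hn0 : (2 : ℝ) ≤ n := by exact_mod_cast hn
    push_cast
    have h1 : ((n : ℝ) + 1) ^ 3 ≤ 12.5 * (n : ℝ) ^ 3 := by
      have h2 : ((n : ℝ) + 1) ≤ 1.5 * n := by linarith
      calc ((n : ℝ) + 1) ^ 3 ≤ (1.5 * n) ^ 3 := by gcongr
        _ = 3.375 * (n : ℝ) ^ 3 := by ring
        _ ≤ 12.5 * (n : ℝ) ^ 3 := by
          have : 0 ≤ (n : ℝ) ^ 3 := by positivity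
          linarith
    calc 18.9 * ((n : ℝ) + 1) ^ 3 ≤ 12.5 * (18.9 * (n : ℝ) ^ 3) := by linarith
      _ ≤ 12.5 * 12.5 ^ (n + 1) := by gcongr
      _ = 12.5 ^ (n + 1 + 1) := by ring

lemma numE {N : ℕ} (hN : 2 ≤ N) :
    2 ^ 40 * 5932.5 * (N : ℝ) ^ 3 * 256 ^ N ≤ 12.5 * 10 ^ 14 * (1250 ^ N * (N : ℝ) ^ N) := by
  induction N, hN using Nat.le_induction with
  | base => norm_num
  | succ n hn ih =>
    have hn0 : (2 : ℝ) ≤ n := by exact_mod_cast hn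
    push_cast
    have h1 : ((n : ℝ) + 1) ^ 3 ≤ 3.375 * (n : ℝ) ^ 3 := by
      have h2 : ((n : ℝ) + 1) ≤ 1.5 * n := by linarith
      calc ((n : ℝ) + 1) ^ 3 ≤ (1.5 * n) ^ 3 := by gcongr
        _ = 3.375 * (n : ℝ) ^ 3 := by ring
    calc 2 ^ 40 * 5932.5 * ((n : ℝ) + 1) ^ 3 * 256 ^ (n + 1) ≤
        2 ^ 40 * 5932.5 * (3.375 * (n : ℝ) ^ 3) * 256 ^ (n + 1) := by gcongr
      _ = 864 * (2 ^ 40 * 5932.5 * (n : ℝ) ^ 3 * 256 ^ n) := by ring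
      _ ≤ 864 * (12.5 * 10 ^ 14 * (1250 ^ n * (n : ℝ) ^ n)) := by gcongr
      _ ≤ (1250 * (n + 1)) * (12.5 * 10 ^ 14 * (1250 ^ n * (n : ℝ) ^ n)) := by
          gcongr
          linarith
      _ ≤ (1250 * (n + 1)) * (12.5 * 10 ^ 14 * (1250 ^ n * ((n : ℝ) + 1) ^ n)) := by
          gcongr
          linarith
      _ = 12.5 * 10 ^ 14 * (1250 ^ (n + 1) * ((n : ℝ) + 1) ^ (n + 1)) := by ring

lemma num_split (N : ℕ) : (100 * (N : ℝ)) ^ (N + 4) =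
    10 ^ 6 * (N : ℝ) ^ 3 * 12.5 ^ (N + 1) * (8 * N) ^ (N + 1) := by
  have h : (100 * (N : ℝ)) ^ (N + 1) = 12.5 ^ (N + 1) * (8 * N) ^ (N + 1) := by
    rw [← mul_pow]; congr 1; ring
  calc (100 * (N : ℝ)) ^ (N + 4) = (100 * (N : ℝ)) ^ 3 * (100 * (N : ℝ)) ^ (N + 1) := by ring
    _ = _ := by rw [h]; ring

lemma numC2 {N : ℕ} (hN : 2 ≤ N) :
    4 / (bh N ^ 2 / (10 ^ 6 * N ^ 5)) ≤ 2 * N * (100 * (N : ℝ)) ^ (N + 4) := by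
  have hN0 : (2 : ℝ) ≤ N := by exact_mod_cast hN
  have hb := bh_pos hN
  have h1 : 4 / (bh N ^ 2 / (10 ^ 6 * N ^ 5)) = 4 * 10 ^ 6 * (N : ℝ) ^ 5 * (1 / bh N ^ 2) := by
    field_simp
  rw [h1, num_split]
  calc 4 * 10 ^ 6 * (N : ℝ) ^ 5 * (1 / bh N ^ 2) ≤
      4 * 10 ^ 6 * (N : ℝ) ^ 5 * (9.45 * (N : ℝ) ^ 2 * (8 * N) ^ (N + 1)) := by
        gcongr
        exact numA hN
    _ = 2 * N * (10 ^ 6 * (N : ℝ) ^ 3 * (18.9 * (N : ℝ) ^ 3) * (8 * N) ^ (N + 1)) := by ring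
    _ ≤ 2 * N * (10 ^ 6 * (N : ℝ) ^ 3 * 12.5 ^ (N + 1) * (8 * N) ^ (N + 1)) := by
        gcongr
        exact numD hN

lemma numC1 {N : ℕ} (hN : 2 ≤ N) :
    (2 ^ (N + 2) * (2 ^ (N + 8) * N * Real.sqrt (50 * N ^ 3 / bh N)) +
      2 ^ (N + 1) * (N + 1) + 2 ^ (N + 2) * N) ^ 2 ≤ 2 * N * (100 * (N : ℝ)) ^ (N + 4) := by
  have hN0 : (2 : ℝ) ≤ N := by exact_mod_cast hN
  have hb := bh_pos hN
  have hb6 := bh_le hN
  set q := Real.sqrt (50 * N ^ 3 / bh N) with hq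
  have hq2 : q ^ 2 = 50 * N ^ 3 / bh N := Real.sq_sqrt (by positivity)
  have hq1 : 8 ≤ q := by
    apply Real.le_sqrt_of_sq_le
    rw [le_div_iff₀ hb]
    have : (2 : ℝ) ^ 3 ≤ (N : ℝ) ^ 3 := by gcongr
    nlinarith
  set K := 2 ^ (N + 8) * (N : ℝ) * q with hK
  have hK1 : 2 * (N : ℝ) ≤ K / 1000 := by
    have h1 : (1024 : ℝ) ≤ 2 ^ (N + 8) := by
      calc (1024 : ℝ) = 2 ^ (2 + 8) := by norm_num
        _ ≤ 2 ^ (N + 8) := by gcongr; norm_num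
    have h2 : 1024 * (N : ℝ) * 8 ≤ K := by
      rw [hK]; gcongr
    linarith
  have hK0 : 0 ≤ K := by positivity
  have h3 : 2 ^ (N + 2) * K + 2 ^ (N + 1) * (N + 1) + 2 ^ (N + 2) * N ≤
      2 ^ (N + 2) * (1.001 * K) := by
    have h4 : (2 : ℝ) ^ (N + 1) * (N + 1) = 2 ^ (N + 2) * ((N + 1) / 2) := by ring
    rw [h4]
    have h5 : (2 : ℝ) ^ (N + 2) * K + 2 ^ (N + 2) * ((N + 1) / 2) + 2 ^ (N + 2) * N =
        2 ^ (N + 2) * (K + (N + 1) / 2 + N) := by ring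
    rw [h5]
    gcongr
    linarith
  have h6 : (2 ^ (N + 2) * K + 2 ^ (N + 1) * (N + 1) + 2 ^ (N + 2) * N) ^ 2 ≤
      2 ^ (4 * N + 20) * 50.11 * (N : ℝ) ^ 5 * (1 / bh N) := by
    calc (2 ^ (N + 2) * K + 2 ^ (N + 1) * (N + 1) + 2 ^ (N + 2) * N) ^ 2 ≤
        (2 ^ (N + 2) * (1.001 * K)) ^ 2 := by gcongr
      _ = 2 ^ (4 * N + 20) * 1.002001 * (N : ℝ) ^ 2 * q ^ 2 := by rw [hK]; ring
      _ = 2 ^ (4 * N + 20) * (1.002001 * 50) * (N : ℝ) ^ 5 * (1 / bh N) := by rw [hq2]; ring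
      _ ≤ 2 ^ (4 * N + 20) * 50.11 * (N : ℝ) ^ 5 * (1 / bh N) := by
        gcongr
        norm_num
  refine h6.trans ?_
  refine (abs_le_of_sq_le_sq' ?_ (by positivity)).2
  calc (2 ^ (4 * N + 20) * 50.11 * (N : ℝ) ^ 5 * (1 / bh N)) ^ 2 =
      (2 ^ (4 * N + 20)) ^ 2 * 50.11 ^ 2 * (N : ℝ) ^ 10 * (1 / bh N ^ 2) := by ring
    _ ≤ (2 ^ (4 * N + 20)) ^ 2 * 50.11 ^ 2 * (N : ℝ) ^ 10 *
        (9.45 * (N : ℝ) ^ 2 * (8 * N) ^ (N + 1)) := by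
        gcongr
        exact numA hN
    _ = 2 ^ 40 * (50.11 ^ 2 * 9.45) * (N : ℝ) ^ 3 * 256 ^ N *
        ((N : ℝ) ^ 9 * (8 * N) ^ (N + 1)) := by
        have : ((2 : ℝ) ^ (4 * N + 20)) ^ 2 = 2 ^ 40 * 256 ^ N := by
          rw [← pow_mul, show (4 * N + 20) * 2 = 40 + 8 * N by ring, pow_add, pow_mul]
          norm_num
        rw [this]; ring
    _ = (50.11 ^ 2 * 9.45) * (2 ^ 40 * (N : ℝ) ^ 3 * 256 ^ N *
        ((N : ℝ) ^ 9 * (8 * N) ^ (N + 1))) := by ring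
    _ ≤ (4 * 5932.5) * (2 ^ 40 * (N : ℝ) ^ 3 * 256 ^ N *
        ((N : ℝ) ^ 9 * (8 * N) ^ (N + 1))) := 
        mul_le_mul_of_nonneg_right (by norm_num) (by positivity)
    _ = 4 * (2 ^ 40 * 5932.5 * (N : ℝ) ^ 3 * 256 ^ N) * ((N : ℝ) ^ 9 * (8 * N) ^ (N + 1)) := by ring
    _ ≤ 4 * (12.5 * 10 ^ 14 * (1250 ^ N * (N : ℝ) ^ N)) * ((N : ℝ) ^ 9 * (8 * N) ^ (N + 1)) :=
        mul_le_mul_of_nonneg_right (mul_le_mul_of_nonneg_left (numE hN) (by norm_num))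
          (by positivity)
    _ = (2 * N * (100 * (N : ℝ)) ^ (N + 4)) ^ 2 := by
        rw [num_split]
        have e1 : (12.5 : ℝ) ^ (N + 1) * (12.5 ^ (N + 1) * (8 * N) ^ (N + 1)) =
            12.5 * 12.5 * 8 * N * (1250 ^ N * (N : ℝ) ^ N) := by
          rw [pow_succ, pow_succ (8 * (N : ℝ)), mul_pow 8 (N : ℝ)]
          have : (1250 : ℝ) ^ N = 12.5 ^ N * 12.5 ^ N * 8 ^ N := by
            rw [← mul_pow, ← mul_pow]; norm_num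
          rw [this]; ring
        calc 4 * (12.5 * 10 ^ 14 * (1250 ^ N * (N : ℝ) ^ N)) * ((N : ℝ) ^ 9 * (8 * N) ^ (N + 1)) =
            4 * 10 ^ 12 * (N : ℝ) ^ 8 * (12.5 * 12.5 * 8 * N * (1250 ^ N * (N : ℝ) ^ N)) *
              (8 * N) ^ (N + 1) := by ring
          _ = 4 * 10 ^ 12 * (N : ℝ) ^ 8 * (12.5 ^ (N + 1) * (12.5 ^ (N + 1) * (8 * N) ^ (N + 1))) *
              (8 * N) ^ (N + 1) := by rw [e1]
          _ = _ := by ring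

end Pool.Agent.Helper71.FKFinal
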