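import Pool.Agent.Helper71.FK.Norm
import Pool.Agent.Helper71.FK.Numer
import Pool.Agent.Helper37.FK.Wire
import Pool.Agent.Helper80.FK.Balls

open MeasureTheory Metric Set Filter Topology
open scoped ENNReal ContDiff

namespace Pool.Agent.Helper71.FKFinal

open Pool.Agent.Helper71.FK Pool.Agent.Helper64.FKI

variable {N : ℕ}

/-- the quantitative Faber-Krahn inequality with an explicit constant, `N ≥ 2` -/
theorem quantitative (hN : 2 ≤ N) {Ω : Set (E N)} (ho : IsOpen Ω) (h0 : 0 < volume Ω)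
    (hf : volume Ω < ⊤) :
    1 / (100 * (N : ℝ)) ^ (N + 4) * ballValue N * asym Ω ^ 2 ≤ deficit Ω := by
  have hN1 : 1 ≤ N := by omega
  have hN0 : (2 : ℝ) ≤ N := by exact_mod_cast hN
  have hom := Pool.Agent.Helper71.FK.om_pos N
  have hb := bh_pos hN
  have hb6 := bh_le hN
  have hC : 2 * N / (2 * N * (100 * (N : ℝ)) ^ (N + 4)) = 1 / (100 * (N : ℝ)) ^ (N + 4) := by
    field_simp
  rw [← hC]
  refine deficit_ge hN1 (by positivity) ?_ ho h0 hf
  intro Ω ho hV η hη
  refine main_norm hN1 (K := 2 ^ (N + 8) * N * Real.sqrt (50 * N ^ 3 / bh N))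
    (s0 := bh N ^ 2 / (10 ^ 6 * N ^ 5)) (by positivity) ?_ (by positivity) (numC1 hN)
    (numC2 hN) ?_ ?_ ?_ Ω ho hV η hη
  · rw [div_le_one (by positivity)]
    have h1 : bh N ^ 2 ≤ 1 := by nlinarith
    have h2 : (1 : ℝ) ≤ 10 ^ 6 * (N : ℝ) ^ 5 := by
      have : (1 : ℝ) ≤ (N : ℝ) ^ 5 := one_le_pow₀ (by linarith)
      linarith
    linarith
  · intro Ω u w g hp hV d hd0 hd hds
    obtain ⟨b, hb'⟩ := partII hN hp (Pair.energy hp)
      (fun s hs => hp.talenti hN1 (IP_all hN1) hV s hs) (hp.star hN1 (IP_all hN1) hV) hV hd0 hd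
      (by
        unfold smallC
        refine hds.trans (le_of_eq ?_)
        ring)
    refine ⟨b, hb'.trans (le_of_eq ?_)⟩
    have h1 : om N * Zd N d = om N ^ 2 * (50 * N ^ 3 / bh N) * (d / om N) := by
      unfold Zd
      field_simp
    rw [h1, Real.sqrt_mul (by positivity), Real.sqrt_mul (by positivity), Real.sqrt_sq hom.le]
    ring
  · intro Ω u w g hp hV b
    exact Pair.partI hN1 hp (IP_all hN1) hV b rfl
  · intro Ω ho hf
    exact exists_pair hN1 (SV_all hN1) ho hf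

theorem gamma_lower (hN : 2 ≤ N) : 1 / (100 * (N : ℝ)) ^ (N + 4) * ballValue N ≤ gammaStar N := by
  refine gammaStar_ge (fun Ω ho h0 hf => quantitative hN ho h0 hf) ?_
  obtain ⟨Ω, h1, h2, h3, h4⟩ := Helper80.FKBalls.exists_balls (N := N) (by omega)
    (a := 1 / 2) (by norm_num) (by norm_num)
  have hom := Pool.Agent.Helper71.FK.om_pos N
  refine ⟨Ω, h1, ?_, ?_, ?_⟩
  · rw [h2]; exact ENNReal.ofReal_pos.2 hom
  · rw [h2]; exact ENNReal.ofReal_lt_top
  · linarith

theorem gamma_upper (hN : 2 ≤ N) {a : ℝ} (ha : 0 < a) (ha1 : a < 1) :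
    gammaStar N ≤ (a ^ (-(2 / (N : ℝ))) - 1) / (4 * (1 - a) ^ 2) * ballValue N :=
  gammaStar_le_of_balls (by omega) (fun Ω ho h0 hf => quantitative hN ho h0 hf) ha ha1
    (Helper80.FKBalls.exists_balls (by omega) ha ha1)

end Pool.Agent.Helper71.FKFinal
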