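import Pool.Agent.Helper71.FK.Assemble
import Pool.Agent.Helper79.FKD.One

open MeasureTheory Metric Set Filter Topology
open scoped ENNReal ContDiff

namespace Pool.Agent.Helper71.FKFinal

open Pool.Agent.Helper71.FK

variable {N : ℕ}

/-- the Faber-Krahn inequality in every dimension -/
theorem faber_krahn (hN : 1 ≤ N) {Ω : Set (E N)} (ho : IsOpen Ω) (h0 : 0 < volume Ω)
    (hf : volume Ω < ⊤) : 0 ≤ deficit Ω := by
  have hom := Pool.Agent.Helper71.FK.om_pos N
  have h := deficit_ge hN (c := 0) le_rfl (fun Ω ho hV η hη => by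
    have hf : volume Ω ≠ ⊤ := by rw [hV]; exact ENNReal.ofReal_ne_top
    obtain ⟨u, w, g, hp⟩ := exists_pair hN (SV_all hN) ho hf
    have h1 := chain hN hV hp
    have h2 := Pair.le_TB hN hp hV
    have h3 := lambda1_nonneg (ball (0 : E N) 1)
    refine ⟨0, ?_⟩
    have h4 : 0 ≤ lambda1 (ball (0 : E N) 1) * (2 * N * ((TB N 1 - ∫ x, w x) / om N)) := by
      have : 0 ≤ (TB N 1 - ∫ x, w x) / om N := div_nonneg (by linarith) hom.le
      positivity
    rw [zero_mul, zero_mul]
    linarith) ho h0 hf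
  simpa using h

theorem gamma_upper' (hN : 1 ≤ N) {a : ℝ} (ha : 0 < a) (ha1 : a < 1) :
    gammaStar N ≤ (a ^ (-(2 / (N : ℝ))) - 1) / (4 * (1 - a) ^ 2) * ballValue N :=
  gammaStar_le_of_balls hN (c := 0) (fun Ω ho h0 hf => by
    rw [zero_mul]; exact faber_krahn hN ho h0 hf) ha ha1
    (Helper80.FKBalls.exists_balls (by omega) ha ha1)

/-- `gammaStar N` is the best constant -/
theorem gammaStar_mul_le (hN : 1 ≤ N) {Ω : Set (E N)} (ho : IsOpen Ω) (h0 : 0 < volume Ω)
    (hf : volume Ω < ⊤) : gammaStar N * asym Ω ^ 2 ≤ deficit Ω := by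
  rcases (asym_nonneg Ω).eq_or_lt with h | h
  · rw [← h]
    simpa using faber_krahn hN ho h0 hf
  · have := gammaStar_le (N := N) (c := 0) (fun Ω ho h0 hf => by
      rw [zero_mul]; exact faber_krahn hN ho h0 hf) ho h0 hf h
    rwa [le_div_iff₀ (by positivity)] at this

end Pool.Agent.Helper71.FKFinal
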