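import Pool.Agent.Helper71.FK.Lam
import Pool.Agent.Helper71.FK.Ind2
import Pool.Agent.Helper47.FK.PairB
import Pool.Agent.Helper79.KJ6

open MeasureTheory Metric Set Filter Topology
open scoped ENNReal ContDiff

namespace Pool.Agent.Helper71.FKFinal

open Pool.Agent.Helper71.FK

variable {N : ℕ}

/-- from nonnegative to arbitrary test functions -/
lemma ray_of_nonneg {Ω : Set (E N)} {L : ℝ} (hL : 0 ≤ L)
    (h : ∀ u, Tst Ω u → (∀ x, 0 ≤ u x) → L * (∫ x, u x ^ 2) ≤ dir u) {u : E N → ℝ}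
    (hu : Tst Ω u) : L * (∫ x, u x ^ 2) ≤ dir u := by
  have key : ∀ ε : ℝ, 0 < ε → L * ((∫ x, u x ^ 2) - 2 * ε * ∫ x, |u x|) ≤ dir u := by
    intro ε hε
    have ht := hu.qcomp (Helper47.FK.psi_smooth hε) (Helper47.FK.psi_zero hε)
    have h1 := h _ ht (fun x => Helper47.FK.psi_nonneg hε _)
    have h2 := Helper47.FK.dir_comp_le hu (Helper47.FK.psi_smooth hε) (Helper47.FK.psi_zero hε)
      (Helper47.FK.psi_deriv hε)
    have h3 : (∫ x, u x ^ 2) - 2 * ε * (∫ x, |u x|) ≤ ∫ x, Helper47.FK.psi ε (u x) ^ 2 := by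
      rw [← integral_const_mul, ← integral_sub (Tst.integrable_sq hu)
        (hu.integrable.abs.const_mul _)]
      refine integral_mono ((Tst.integrable_sq hu).sub (hu.integrable.abs.const_mul _))
        (Tst.integrable_sq ht) fun x => ?_
      change u x ^ 2 - 2 * ε * |u x| ≤ Helper47.FK.psi ε (u x) ^ 2
      have h4 := Helper47.FK.psi_ge hε (u x)
      have h5 := Helper47.FK.psi_nonneg hε (u x)
      have h6 := abs_nonneg (u x)
      have h7 := sq_abs (u x)
      rcases le_or_gt ε |u x| with h8 | h8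
      · nlinarith
      · nlinarith
    calc L * ((∫ x, u x ^ 2) - 2 * ε * ∫ x, |u x|) ≤ L * ∫ x, Helper47.FK.psi ε (u x) ^ 2 :=
          mul_le_mul_of_nonneg_left h3 hL
      _ ≤ dir (fun x => Helper47.FK.psi ε (u x)) := h1
      _ ≤ 1 ^ 2 * dir u := h2
      _ = dir u := by ring
  have hc : Tendsto (fun ε : ℝ => L * ((∫ x, u x ^ 2) - 2 * ε * ∫ x, |u x|)) (𝓝[>] 0)
      (𝓝 (L * ((∫ x, u x ^ 2) - 2 * 0 * ∫ x, |u x|))) := by
    refine Tendsto.mono_left ?_ nhdsWithin_le_nhds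
    have : Continuous fun ε : ℝ => L * ((∫ x, u x ^ 2) - 2 * ε * ∫ x, |u x|) := by fun_prop
    exact this.tendsto 0
  have := le_of_tendsto hc (by
    filter_upwards [self_mem_nhdsWithin] with ε hε
    exact key ε hε)
  simpa using this

lemma Pair.energy {Ω : Set (E N)} {u : ℕ → E N → ℝ} {w : E N → ℝ} {g : E N → E N}
    (hp : Pair Ω u w g) : ∫ x, ‖g x‖ ^ 2 = ∫ x, w x := by
  have := hp.eulerLagrange (ψ := fun s => s) contDiff_id rfl (C := 1) (by simp)
  simpa using this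

lemma Pair.J_le {Ω : Set (E N)} {u : ℕ → E N → ℝ} {w : E N → ℝ} {g : E N → E N}
    (hp : Pair Ω u w g) {φ : E N → ℝ} (hφ : Tst Ω φ) : J φ ≤ ∫ x, w x := by
  have := hp.max φ hφ
  rw [Pair.energy hp] at this
  linarith

lemma Pair.le_TB (hN : 1 ≤ N) {Ω : Set (E N)} {u : ℕ → E N → ℝ} {w : E N → ℝ} {g : E N → E N}
    (hp : Pair Ω u w g) (hV : volume Ω = ENNReal.ofReal (om N)) : ∫ x, w x ≤ TB N 1 := by
  have h1 := Helper47.FK.lim_J hp
  rw [Pair.energy hp] at h1
  have h2 : ∀ k, J (u k) ≤ TB N 1 := fun k =>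
    SV_all hN Ω 1 hp.isOpen zero_le_one (by rw [hV, one_pow, mul_one]) (u k) (hp.tst k) (hp.upos k)
  have := le_of_tendsto' h1 h2
  linarith

lemma Pair.pos {Ω : Set (E N)} {u : ℕ → E N → ℝ} {w : E N → ℝ} {g : E N → E N}
    (hp : Pair Ω u w g) (hne : Ω.Nonempty) : 0 < ∫ x, w x := by
  obtain ⟨φ, hφ, h0, -, hpos⟩ := exists_test hp.isOpen hne
  have hd : 0 ≤ dir φ := integral_nonneg fun x => by positivity
  set I := ∫ x, φ x with hI
  have hc : 0 < I / (dir φ + 1) := by positivity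
  have h1 := Pair.J_le hp (hφ.tst.const_mul (I / (dir φ + 1)))
  rw [J_const_mul hφ.tst.differentiable, ← hI] at h1
  refine lt_of_lt_of_le ?_ h1
  have h2 : I / (dir φ + 1) * dir φ ≤ I := by
    rw [div_mul_eq_mul_div, div_le_iff₀ (by positivity)]
    nlinarith
  have h3 : 2 * (I / (dir φ + 1)) * I - (I / (dir φ + 1)) ^ 2 * dir φ =
      (I / (dir φ + 1)) * (2 * I - I / (dir φ + 1) * dir φ) := by ring
  rw [h3]
  exact mul_pos hc (by linarith)

/-- Kohler-Jobin: the eigenvalue deficit controls the torsion deficit -/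
theorem chain (hN : 1 ≤ N) {Ω : Set (E N)} (hV : volume Ω = ENNReal.ofReal (om N))
    {u : ℕ → E N → ℝ} {w : E N → ℝ} {g : E N → E N} (hp : Pair Ω u w g) :
    lambda1 (ball (0 : E N) 1) * (2 * N * ((TB N 1 - ∫ x, w x) / om N)) ≤
      lambda1 Ω - lambda1 (ball (0 : E N) 1) := by
  have hom := om_pos N
  have hN0 : (0 : ℝ) < N := by exact_mod_cast hN
  have hne : Ω.Nonempty := by
    by_contra h
    rw [not_nonempty_iff_eq_empty] at h
    rw [h, measure_empty] at hV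
    exact absurd hV.symm (by simpa using hom)
  have hT0 := Pair.pos hp hne
  have hT1 := Pair.le_TB hN hp hV
  have hTB : 0 < TB N 1 := hT0.trans_le hT1
  set T := ∫ x, w x with hT
  set r : ℝ := (T / TB N 1) ^ (((N + 2 : ℕ) : ℝ)⁻¹) with hr
  have hq0 : 0 < T / TB N 1 := div_pos hT0 hTB
  have hq1 : T / TB N 1 ≤ 1 := (div_le_one hTB).2 hT1
  have hr0 : 0 < r := Real.rpow_pos_of_pos hq0 _
  have hr1 : r ≤ 1 := Real.rpow_le_one hq0.le hq1 (by positivity)
  have hrp : r ^ (N + 2) = T / TB N 1 := Real.rpow_inv_natCast_pow hq0.le (by omega)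
  have hTBr : TB N r = T := by
    have : TB N r = TB N 1 * r ^ (N + 2) := by
      unfold TB
      ring
    rw [this, hrp]
    field_simp
  have hkj := Helper79.KJ.kohler_jobin hN (SV_all hN) hp.isOpen hp.fin hr0
    (fun φ hφ _ => by rw [hTBr]; exact Pair.J_le hp hφ)
    (lambda1_nonneg (ball (0 : E N) r)) (fun v hv => lambda1_mul_le isOpen_ball hv)
  have h1 : lambda1 (ball (0 : E N) r) ≤ lambda1 Ω :=
    le_lambda1 hp.isOpen hne fun v hv =>
      ray_of_nonneg (lambda1_nonneg _) hkj hv.tst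
  rw [lambda1_ball 0 hr0] at h1
  have hL := lambda1_nonneg (ball (0 : E N) 1)
  set L := lambda1 (ball (0 : E N) 1) with hLdef
  -- `2 N (TB - T) / om = 2 / (N+2) * (1 - r^(N+2))`
  have h2 : 2 * N * ((TB N 1 - T) / om N) = 2 / (N + 2) * (1 - r ^ (N + 2)) := by
    rw [hrp]
    have hTBe : TB N 1 = om N / (N * (N + 2)) := by unfold TB; ring
    have hT2 : T = TB N 1 * r ^ (N + 2) := by rw [hrp]; field_simp
    rw [hTBe]
    field_simp
  have h3 : 1 - r ^ (N + 2) ≤ (N + 2) * (1 - r) := by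
    have := one_add_mul_le_pow (a := r - 1) (by linarith) (N + 2)
    rw [add_sub_cancel] at this
    push_cast at this
    linarith
  have h4 : 2 * (1 - r) ≤ 1 / r ^ 2 - 1 := by
    rw [le_sub_iff_add_le, le_div_iff₀ (by positivity)]
    nlinarith [mul_nonneg hr0.le (sub_nonneg.2 hr1), mul_nonneg (sub_nonneg.2 hr1)
      (mul_nonneg hr0.le (sub_nonneg.2 hr1)), sq_nonneg (1 - r), sq_nonneg r]
  have h5 : 2 / (N + 2) * (1 - r ^ (N + 2)) ≤ 1 / r ^ 2 - 1 := by
    calc 2 / ((N : ℝ) + 2) * (1 - r ^ (N + 2)) ≤ 2 / (N + 2) * ((N + 2) * (1 - r)) := by gcongr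
      _ = 2 * (1 - r) := by field_simp
      _ ≤ _ := h4
  rw [h2]
  calc L * (2 / (N + 2) * (1 - r ^ (N + 2))) ≤ L * (1 / r ^ 2 - 1) := by gcongr
    _ = L / r ^ 2 - L := by ring
    _ ≤ lambda1 Ω - L := by linarith

end Pool.Agent.Helper71.FKFinal
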