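import Mathlib

/-! Definitions used in the final statement on the quantitative Faber-Krahn inequality. -/

open MeasureTheory Metric Set Filter Topology
open scoped ENNReal ContDiff

namespace Pool.Agent.Helper71.FKFinal

/-- `φ ∈ C_c^∞(Ω)`. -/
def IsTest {N : ℕ} (Ω : Set (EuclideanSpace ℝ (Fin N))) (φ : EuclideanSpace ℝ (Fin N) → ℝ) :
    Prop :=
  ContDiff ℝ ∞ φ ∧ HasCompactSupport φ ∧ tsupport φ ⊆ Ω

/-- `v ∈ H_0^1(Ω)` with weak gradient `g`; the space `H_0^1(Ω)` is the closure of `C_c^∞(Ω)` in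
the Sobolev space `H^1(ℝ^N)`. -/
def IsH01 {N : ℕ} (Ω : Set (EuclideanSpace ℝ (Fin N))) (v : EuclideanSpace ℝ (Fin N) → ℝ)
    (g : EuclideanSpace ℝ (Fin N) → EuclideanSpace ℝ (Fin N)) : Prop :=
  MemLp v 2 volume ∧ MemLp g 2 volume ∧
    ∃ φ : ℕ → EuclideanSpace ℝ (Fin N) → ℝ, (∀ k, IsTest Ω (φ k)) ∧
      Tendsto (fun k => ∫ x, (φ k x - v x) ^ 2) atTop (𝓝 0) ∧
      Tendsto (fun k => ∫ x, ‖gradient (φ k) x - g x‖ ^ 2) atTop (𝓝 0)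

/-- the first Dirichlet eigenvalue: the infimum of the Rayleigh quotients of the nonzero
elements of `H_0^1(Ω)` -/
noncomputable def lambda1 {N : ℕ} (Ω : Set (EuclideanSpace ℝ (Fin N))) : ℝ :=
  sInf {q : ℝ | ∃ v g, IsH01 Ω v g ∧ (∫ x, v x ^ 2) ≠ 0 ∧
    q = (∫ x, ‖g x‖ ^ 2) / (∫ x, v x ^ 2)}

/-- the radius of a ball with the same volume as `Ω` -/
noncomputable def starRadius {N : ℕ} (Ω : Set (EuclideanSpace ℝ (Fin N))) : ℝ :=
  (volume.real Ω / volume.real (ball (0 : EuclideanSpace ℝ (Fin N)) 1)) ^ ((N : ℝ)⁻¹)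

/-- the Faber-Krahn deficit `D(Ω) = |Ω|^{2/N} (λ₁(Ω) - λ₁(Ω^*))` -/
noncomputable def deficit {N : ℕ} (Ω : Set (EuclideanSpace ℝ (Fin N))) : ℝ :=
  volume.real Ω ^ (2 / (N : ℝ)) *
    (lambda1 Ω - lambda1 (ball (0 : EuclideanSpace ℝ (Fin N)) (starRadius Ω)))

/-- the Fraenkel asymmetry -/
noncomputable def asym {N : ℕ} (Ω : Set (EuclideanSpace ℝ (Fin N))) : ℝ :=
  sInf {t : ℝ | ∃ (x : EuclideanSpace ℝ (Fin N)) (r : ℝ), 0 < r ∧
    volume (ball x r) = volume Ω ∧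
    t = volume.real (symmDiff Ω (ball x r)) / volume.real Ω}

/-- the optimal constant `γ_N^*` -/
noncomputable def gammaStar (N : ℕ) : ℝ :=
  sInf {q : ℝ | ∃ Ω : Set (EuclideanSpace ℝ (Fin N)), IsOpen Ω ∧ 0 < volume Ω ∧ volume Ω < ⊤ ∧
    0 < asym Ω ∧ q = deficit Ω / asym Ω ^ 2}

/-- the number `|B|^{2/N} λ₁(B)`, the same for all balls `B ⊆ ℝ^N` -/
noncomputable def ballValue (N : ℕ) : ℝ :=
  volume.real (ball (0 : EuclideanSpace ℝ (Fin N)) 1) ^ (2 / (N : ℝ)) *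
    lambda1 (ball (0 : EuclideanSpace ℝ (Fin N)) 1)

end Pool.Agent.Helper71.FKFinal
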