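import Pool.Agent.Helper71.FK.Trans

open MeasureTheory Metric Set Filter Topology
open scoped ENNReal

namespace Pool.Agent.Helper71.FK

/-- the convex penalty -/
noncomputable def Gf (n : ℕ) (l : ℝ) : ℝ := l + n * (l ^ ((n : ℝ)⁻¹))⁻¹ - (n + 1)

lemma bern {n : ℕ} {m : ℝ} (hm : 0 < m) : (n : ℝ) + 1 ≤ m ^ n + n * m⁻¹ := by
  have h := one_add_mul_le_pow (a := m - 1) (by linarith) (n + 1)
  rw [add_sub_cancel] at h
  push_cast at h
  have h2 : m ^ n + n * m⁻¹ = (m ^ (n + 1) + n) / m := by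
    field_simp
    ring
  rw [h2, le_div_iff₀ hm]
  linarith

lemma Gf_nonneg {n : ℕ} (hn : 1 ≤ n) {l : ℝ} (hl : 0 < l) : 0 ≤ Gf n l := by
  have h1 : 0 < l ^ ((n : ℝ)⁻¹) := Real.rpow_pos_of_pos hl _
  have h2 := bern (n := n) h1
  rw [Real.rpow_inv_natCast_pow hl.le (by omega)] at h2
  unfold Gf
  linarith

namespace Trans

variable {n : ℕ} {i : Fin (n + 1)} {Ω : Set (E (n + 1))} {R : ℝ} {T : ℝ → ℝ}

/-- the ratio of slice radii -/
noncomputable def mu {n : ℕ} (i : Fin (n + 1)) (Ω : Set (E (n + 1))) (R : ℝ) (T : ℝ → ℝ) (s : ℝ) :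
    ℝ := (lam i Ω R T s) ^ ((n : ℝ)⁻¹)

lemma mu_nonneg (s : ℝ) : 0 ≤ mu i Ω R T s := Real.rpow_nonneg (lam_nonneg s) _

lemma lam_one (hT : Trans i Ω R T) (hn : n = 0) {s : ℝ} {y : E n} (hy : ins i s y ∈ Ω) :
    lam i Ω R T s = 1 := by
  subst hn
  have h1 : {y : E 0 | ins i s y ∈ Ω} = univ := by
    refine eq_univ_of_forall fun z => ?_
    rw [Subsingleton.elim z y]
    exact hy
  have h2 : T s ∈ Ioo (-R) R := by
    have := hT.T_mem hy
    simpa using this
  have h3 : ball (0 : E 0) 1 = univ := by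
    refine eq_univ_of_forall fun z => ?_
    rw [Subsingleton.elim z 0]
    simp
  rw [lam, Am, h1, bt_eq h2, om, h3, pow_zero, mul_one, div_self]
  have : volume.real (univ : Set (E 0)) = om 0 := by rw [om, h3]
  rw [this]
  exact (om_pos 0).ne'

lemma mu_pow (hT : Trans i Ω R T) {s : ℝ} {y : E n} (hy : ins i s y ∈ Ω) :
    mu i Ω R T s ^ n = lam i Ω R T s := by
  rcases Nat.eq_zero_or_pos n with hn | hn
  · rw [hT.lam_one hn hy, mu, hT.lam_one hn hy]
    simp
  · exact Real.rpow_inv_natCast_pow (lam_nonneg s) (by omega)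

lemma mu_measurable (hT : Trans i Ω R T) : Measurable (mu i Ω R T) :=
  hT.lam_measurable.pow_const _

lemma ae_slice (hT : Trans i Ω R T) : ∀ᵐ s, (∀ y : E n, ins i s y ∉ Ω) ∨
    (T s ∈ Ioo (-R) R ∧ 0 < Am i Ω s ∧ 0 < mu i Ω R T s ∧
      Am i Ω s = om n * (mu i Ω R T s * Real.sqrt (R ^ 2 - T s ^ 2)) ^ n ∧
      volume {y : E n | ins i s y ∈ Ω} =
      ENNReal.ofReal (om n * (mu i Ω R T s * Real.sqrt (R ^ 2 - T s ^ 2)) ^ n)) := by
  filter_upwards [ae_slice_lt_top i hT.meas hT.fin] with s hs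
  rcases ({y : E n | ins i s y ∈ Ω}).eq_empty_or_nonempty with he | ⟨y, hy⟩
  · left
    intro y hy
    have : y ∈ {y : E n | ins i s y ∈ Ω} := hy
    rw [he] at this
    exact this
  · right
    have hTs : T s ∈ Ioo (-R) R := by
      have := hT.T_mem (x := ins i s y) hy
      simpa using this
    have ho : IsOpen {y : E n | ins i s y ∈ Ω} :=
      hT.isOpen.preimage (isClosedEmbedding_ins i s).continuous
    have hA : 0 < Am i Ω s := ENNReal.toReal_pos (ho.measure_pos _ ⟨y, hy⟩).ne' hs.ne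
    have hb := bt_pos n hTs
    have hl : 0 < lam i Ω R T s := div_pos hA hb
    have hA2 : Am i Ω s = om n * (mu i Ω R T s * Real.sqrt (R ^ 2 - T s ^ 2)) ^ n := by
      rw [mul_pow, hT.mu_pow hy, lam, bt_eq hTs]
      have h1 := om_pos n
      have h2 := sqrt_pos_of_mem hTs
      field_simp
    refine ⟨hTs, hA, Real.rpow_pos_of_pos hl _, hA2, ?_⟩
    rw [← hA2, Am, Measure.real, ENNReal.ofReal_toReal hs.ne]

lemma zero_of_slice {u : E (n + 1) → ℝ} (hu : Tst Ω u) {s : ℝ}
    (h : ∀ y : E n, ins i s y ∉ Ω) : (fun y => u (ins i s y)) = fun _ => 0 := by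
  funext y
  exact hu.zero_of_notMem (h y)

lemma dir_nonneg {N : ℕ} (u : E N → ℝ) : 0 ≤ dir u := integral_nonneg fun x => by positivity

lemma slice_sv (hT : Trans i Ω R T) (hSV : 1 ≤ n → SV n) {u : E (n + 1) → ℝ} (hu : Tst Ω u)
    (hu0 : ∀ x, 0 ≤ u x) : ∀ᵐ s,
      2 * (n + 1) * (n * (mu i Ω R T s)⁻¹ * ∫ y, u (ins i s y)) ≤
        (n + 1) ^ 2 * dir (fun y => u (ins i s y)) +
          n / (n + 2) * (Am i Ω s * (R ^ 2 - T s ^ 2)) := by
  filter_upwards [hT.ae_slice] with s hs
  have h8 : 0 ≤ R ^ 2 - T s ^ 2 := by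
    have := hT.absle s
    have := hT.Rpos
    nlinarith [abs_nonneg (T s), sq_abs (T s)]
  have h7 := Am_nonneg i (Ω := Ω) s
  rcases Nat.eq_zero_or_pos n with hn0 | hn0
  · have h6 := dir_nonneg (fun y : E n => u (ins i s y))
    have h9 : (n : ℝ) = 0 := by exact_mod_cast hn0
    rw [h9]
    simpa using h6
  rcases hs with h | ⟨h1, h2, h3, h4, h5⟩
  · rw [zero_of_slice hu h, integral_zero, mul_zero, mul_zero]
    have h6 := dir_nonneg (fun _ : E n => (0 : ℝ))
    positivity
  · have hn : (0 : ℝ) < n := by positivity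
    set m := mu i Ω R T s with hm
    set ρ := Real.sqrt (R ^ 2 - T s ^ 2) with hρ
    have hρ0 : 0 < ρ := sqrt_pos_of_mem h1
    have hρ2 : ρ ^ 2 = R ^ 2 - T s ^ 2 := Real.sq_sqrt (by nlinarith [h1.1, h1.2])
    have hus := hu.slice i s
    have ho : IsOpen {y : E n | ins i s y ∈ Ω} :=
      hT.isOpen.preimage (isClosedEmbedding_ins i s).continuous
    have hc : 0 < (n + 1) * m / n := by positivity
    have key := hSV hn0 {y : E n | ins i s y ∈ Ω} (m * ρ) ho (by positivity) h5.le
      (fun y => ((n + 1) * m / n) * u (ins i s y)) (hus.const_mul _)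
      (fun y => mul_nonneg hc.le (hu0 _))
    rw [J_const_mul hus.differentiable] at key
    have e1 : TB n (m * ρ) * (n / m) ^ 2 = n / (n + 2) * (Am i Ω s * ρ ^ 2) := by
      rw [TB, h4]
      field_simp
      ring
    have key2 := mul_le_mul_of_nonneg_right key (sq_nonneg ((n : ℝ) / m))
    rw [e1, hρ2] at key2
    have e2 : (2 * ((n + 1) * m / n) * (∫ y, u (ins i s y)) -
        ((n + 1) * m / n) ^ 2 * dir (fun y => u (ins i s y))) * (n / m) ^ 2 =
        2 * (n + 1) * (n * m⁻¹ * ∫ y, u (ins i s y)) -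
        (n + 1) ^ 2 * dir (fun y => u (ins i s y)) := by
      field_simp
    rw [e2] at key2
    linarith

lemma slice_ip (hT : Trans i Ω R T) (hIP : 1 ≤ n → IP n) {u : E (n + 1) → ℝ} (hu : Tst Ω u)
    (hu0 : ∀ x, 0 ≤ u x) : ∀ᵐ s,
      n * (mu i Ω R T s)⁻¹ * (∫ y, u (ins i s y)) ≤
        Real.sqrt (R ^ 2 - T s ^ 2) * ∫ y, ‖gradient (fun y => u (ins i s y)) y‖ := by
  filter_upwards [hT.ae_slice] with s hs
  rcases Nat.eq_zero_or_pos n with hn0 | hn0
  · have h6 : 0 ≤ ∫ y : E n, ‖gradient (fun y => u (ins i s y)) y‖ :=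
      integral_nonneg fun y => norm_nonneg _
    have h9 : (n : ℝ) = 0 := by exact_mod_cast hn0
    rw [h9, zero_mul, zero_mul]
    positivity
  rcases hs with h | ⟨h1, h2, h3, h4, h5⟩
  · rw [zero_of_slice hu h, integral_zero, mul_zero]
    have : 0 ≤ ∫ y : E n, ‖gradient (fun _ => (0 : ℝ)) y‖ := integral_nonneg fun y => norm_nonneg _
    positivity
  · set m := mu i Ω R T s with hm
    set ρ := Real.sqrt (R ^ 2 - T s ^ 2) with hρ
    have hρ0 : 0 < ρ := sqrt_pos_of_mem h1
    have hus := hu.slice i s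
    have ho : IsOpen {y : E n | ins i s y ∈ Ω} :=
      hT.isOpen.preimage (isClosedEmbedding_ins i s).continuous
    have key := hIP hn0 {y : E n | ins i s y ∈ Ω} (m * ρ) ho (by positivity) h5.le
      (fun y => u (ins i s y)) hus (fun y => hu0 _)
    have key2 := mul_le_mul_of_nonneg_right key (inv_nonneg.2 h3.le)
    calc n * m⁻¹ * (∫ y, u (ins i s y)) = n * (∫ y, u (ins i s y)) * m⁻¹ := by ring
      _ ≤ m * ρ * (∫ y, ‖gradient (fun y => u (ins i s y)) y‖) * m⁻¹ := key2
      _ = ρ * ∫ y, ‖gradient (fun y => u (ins i s y)) y‖ := by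
        field_simp

lemma integral_slice_integrable {u : E (n + 1) → ℝ} (hu : Tst Ω u) :
    Integrable fun s => ∫ y, u (ins i s y) := integrable_integral_ins i hu.integrable

lemma integrable_grad_coord {N : ℕ} {Ω : Set (E N)} {u : E N → ℝ} (hu : Tst Ω u) (j : Fin N) :
    Integrable fun x => (gradient u x j) ^ 2 := by
  have hc : Continuous fun x => (gradient u x j) ^ 2 := by
    have h2 := hu.continuous_grad
    fun_prop
  refine hc.integrable_of_hasCompactSupport (hu.cpt_grad.mono fun x hx => ?_)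
  rw [Function.mem_support] at hx ⊢
  intro h
  apply hx
  simp [h]

lemma dir_slice_eq {u : E (n + 1) → ℝ} (hu : Tst Ω u) (s : ℝ) :
    dir (fun y => u (ins i s y)) =
      ∫ y, (fun x => ‖gradient u x‖ ^ 2 - (gradient u x i) ^ 2) (ins i s y) := by
  unfold dir
  congr 1
  funext y
  have h := norm_grad_sq i (hu.differentiable (ins i s y))
  change _ = ‖gradient u (ins i s y)‖ ^ 2 - (gradient u (ins i s y) i) ^ 2
  linarith

lemma integrable_dir_slice {u : E (n + 1) → ℝ} (hu : Tst Ω u) :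
    Integrable fun s => dir (fun y => u (ins i s y)) := by
  simp_rw [dir_slice_eq hu]
  exact integrable_integral_ins i (hu.integrable_dir.sub (integrable_grad_coord hu i))

lemma integral_dir_slice {u : E (n + 1) → ℝ} (hu : Tst Ω u) :
    ∫ s, dir (fun y => u (ins i s y)) = dir u - ∫ x, (gradient u x i) ^ 2 := by
  have hi : Integrable (fun x => ‖gradient u x‖ ^ 2 - (gradient u x i) ^ 2) :=
    hu.integrable_dir.sub (integrable_grad_coord hu i)
  have h := integral_ins i hi
  rw [integral_sub hu.integrable_dir (integrable_grad_coord hu i)] at h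
  rw [dir, h]
  congr 1
  funext s
  exact dir_slice_eq hu s

lemma integrable_mu_slice (hT : Trans i Ω R T) {u : E (n + 1) → ℝ} (hu : Tst Ω u)
    (hu0 : ∀ x, 0 ≤ u x) {g : ℝ → ℝ} (hg : Integrable g)
    (h : ∀ᵐ s, n * (mu i Ω R T s)⁻¹ * (∫ y, u (ins i s y)) ≤ g s) :
    Integrable fun s => n * (mu i Ω R T s)⁻¹ * (∫ y, u (ins i s y)) := by
  refine hg.mono' ?_ ?_
  · exact ((measurable_const.mul hT.mu_measurable.inv).aestronglyMeasurable).mul
      (integral_slice_integrable hu).aestronglyMeasurable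
  · filter_upwards [h] with s hs
    rw [Real.norm_of_nonneg]
    · exact hs
    · exact mul_nonneg (mul_nonneg (Nat.cast_nonneg _) (inv_nonneg.2 (mu_nonneg s)))
        (integral_nonneg fun y => hu0 _)

lemma integrable_mu (hT : Trans i Ω R T) {u : E (n + 1) → ℝ} (hu : Tst Ω u)
    (hu0 : ∀ x, 0 ≤ u x)
    (h : Integrable fun s => n * (mu i Ω R T s)⁻¹ * (∫ y, u (ins i s y))) :
    Integrable (fun x => n * (mu i Ω R T (x i))⁻¹ * u x) ∧
    ∫ x, n * (mu i Ω R T (x i))⁻¹ * u x = ∫ s, n * (mu i Ω R T s)⁻¹ * (∫ y, u (ins i s y)) := by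
  have hI : Integrable (fun x => n * (mu i Ω R T (x i))⁻¹ * u x) := by
    rw [← integrable_ins_iff i]
    have hm : Measurable fun p : ℝ × E n => n * (mu i Ω R T (ins i p.1 p.2 i))⁻¹ *
        u (ins i p.1 p.2) := by
      simp only [ins_same]
      exact (measurable_const.mul (hT.mu_measurable.comp measurable_fst).inv).mul
        (hu.continuous.measurable.comp (continuous_ins i).measurable)
    rw [integrable_prod_iff hm.aestronglyMeasurable]
    simp only [ins_same]
    constructor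
    · exact Eventually.of_forall fun s => (hu.slice i s).integrable.const_mul _
    · refine h.congr (Eventually.of_forall fun s => ?_)
      change n * (mu i Ω R T s)⁻¹ * (∫ y, u (ins i s y)) =
        ∫ y, ‖n * (mu i Ω R T s)⁻¹ * u (ins i s y)‖
      rw [← integral_const_mul]
      congr 1
      funext y
      rw [Real.norm_of_nonneg]
      exact mul_nonneg (mul_nonneg (Nat.cast_nonneg _) (inv_nonneg.2 (mu_nonneg s))) (hu0 _)
  refine ⟨hI, ?_⟩
  rw [integral_ins i hI]
  simp only [ins_same, integral_const_mul]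

lemma sq_sub_nonneg (hT : Trans i Ω R T) (s : ℝ) : 0 ≤ R ^ 2 - T s ^ 2 := by
  have := hT.absle s
  have := hT.Rpos
  nlinarith [abs_nonneg (T s), sq_abs (T s)]

lemma moment (hT : Trans i Ω R T) :
    (∫ x in Ω, T (x i) ^ 2) + ∫ s, n / (n + 2) * (Am i Ω s * (R ^ 2 - T s ^ 2)) =
      (n + 1) ^ 2 * TB (n + 1) R := by
  have hTm := hT.cont.measurable
  have hb : ∀ s, |T s ^ 2| ≤ R ^ 2 := fun s => by
    rw [abs_of_nonneg (sq_nonneg _)]
    linarith [hT.sq_sub_nonneg s]
  have hb2 : ∀ s, |R ^ 2 - T s ^ 2| ≤ R ^ 2 := fun s => by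
    rw [abs_of_nonneg (hT.sq_sub_nonneg s)]
    linarith [sq_nonneg (T s)]
  rw [setIntegral_coord i hT.meas hT.fin (f := fun s => T s ^ 2) (hTm.pow_const 2) hb,
    ← integral_bt_moment n hT.Rpos.le,
    ← hT.transport_integral (f := fun t => t ^ 2 + n / (n + 2) * (R ^ 2 - t ^ 2)) (by fun_prop),
    ← integral_add]
  · congr 1
    funext s
    ring
  · exact hT.am_int.mul_bdd (c := R ^ 2) (hTm.pow_const 2).aestronglyMeasurable
      (Eventually.of_forall fun s => hb s)
  · exact (hT.am_int.mul_bdd (c := R ^ 2) (by fun_prop)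
      (Eventually.of_forall fun s => hb2 s)).const_mul _

theorem D_ineq (hT : Trans i Ω R T) (hSV : 1 ≤ n → SV n) {u : E (n + 1) → ℝ} (hu : Tst Ω u)
    (hu0 : ∀ x, 0 ≤ u x) :
    Integrable (fun x => u x * Gf n (lam i Ω R T (x i))) ∧
    (∫ x in Ω, (T (x i) + (n + 1) * gradient u x i) ^ 2) +
      2 * (n + 1) * (∫ x, u x * Gf n (lam i Ω R T (x i))) ≤
        (n + 1) ^ 2 * (TB (n + 1) R - J u) := by
  have hK : Integrable fun s => n / (n + 2) * (Am i Ω s * (R ^ 2 - T s ^ 2)) := by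
    have hTm := hT.cont.measurable
    refine (hT.am_int.mul_bdd (c := R ^ 2) (by fun_prop)
      (Eventually.of_forall fun s => ?_)).const_mul _
    rw [Real.norm_of_nonneg (hT.sq_sub_nonneg s)]
    linarith [sq_nonneg (T s)]
  have hsl := hT.slice_sv hSV hu hu0
  have hg : Integrable fun s => ((n + 1) ^ 2 * dir (fun y => u (ins i s y)) +
          n / (n + 2) * (Am i Ω s * (R ^ 2 - T s ^ 2))) / (2 * (n + 1)) :=
    (((integrable_dir_slice hu).const_mul _).add hK).div_const _
  have hI := hT.integrable_mu_slice hu hu0 hg (by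
    filter_upwards [hsl] with s hs
    rw [le_div_iff₀ (by positivity)]
    linarith)
  obtain ⟨hI2, hM⟩ := hT.integrable_mu hu hu0 hI
  have hLi := hT.integrable_lam hu hu0
  have hGe : ∀ x, u x * Gf n (lam i Ω R T (x i)) = lam i Ω R T (x i) * u x +
      n * (mu i Ω R T (x i))⁻¹ * u x - (n + 1) * u x := by
    intro x
    rw [Gf, mu]
    ring
  have hGi : Integrable (fun x => u x * Gf n (lam i Ω R T (x i))) := by
    simp_rw [hGe]
    exact (hLi.add hI2).sub (hu.integrable.const_mul _)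
  refine ⟨hGi, ?_⟩
  have e1 : ∫ x, u x * Gf n (lam i Ω R T (x i)) = (∫ x, lam i Ω R T (x i) * u x) +
      (∫ x, n * (mu i Ω R T (x i))⁻¹ * u x) - (n + 1) * ∫ x, u x := by
    have hLI : Integrable (fun x => lam i Ω R T (x i) * u x +
      n * (mu i Ω R T (x i))⁻¹ * u x) := hLi.add hI2
    simp_rw [hGe]
    rw [integral_sub hLI (hu.integrable.const_mul _), integral_add hLi hI2,
      integral_const_mul]
  have e2 : ∫ x in Ω, (T (x i) + (n + 1) * gradient u x i) ^ 2 =
      (∫ x in Ω, T (x i) ^ 2) + 2 * (n + 1) * (∫ x, T (x i) * gradient u x i) +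
        (n + 1) ^ 2 * ∫ x, (gradient u x i) ^ 2 := by
    have a1 : ∫ x, T (x i) * gradient u x i = ∫ x in Ω, T (x i) * gradient u x i :=
      (setIntegral_eq_integral_of_forall_compl_eq_zero fun x hx => by
        simp [hu.grad_zero_of_notMem hx]).symm
    have a2 : ∫ x, (gradient u x i) ^ 2 = ∫ x in Ω, (gradient u x i) ^ 2 :=
      (setIntegral_eq_integral_of_forall_compl_eq_zero fun x hx => by
        simp [hu.grad_zero_of_notMem hx]).symm
    have b1 : IntegrableOn (fun x => T (x i) ^ 2) Ω := by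
      have hfin : IsFiniteMeasure (volume.restrict Ω) :=
        ⟨by rw [Measure.restrict_apply_univ]; exact hT.fin.lt_top⟩
      refine Integrable.of_bound
        ((hT.cont.measurable.comp (measurable_coord i)).pow_const 2).aestronglyMeasurable (R ^ 2)
        (Eventually.of_forall fun x => ?_)
      rw [Real.norm_of_nonneg (sq_nonneg _)]
      linarith [hT.sq_sub_nonneg (x i)]
    have b2 := (hT.integrable_T_grad hu).integrableOn (s := Ω)
    have b3 := (integrable_grad_coord hu i).integrableOn (s := Ω)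
    have b4 : IntegrableOn (fun x => T (x i) ^ 2 + 2 * (n + 1) * (T (x i) * gradient u x i)) Ω :=
      b1.add (b2.const_mul _)
    rw [a1, a2, ← integral_const_mul, ← integral_const_mul, ← integral_add b1 (b2.const_mul _),
      ← integral_add b4 (b3.const_mul _)]
    congr 1
    funext x
    ring
  have e3 := hT.integral_T_grad hu hu0
  have e4 := integral_dir_slice (i := i) hu
  have e5 := hT.moment
  have e6 : 2 * (n + 1) * (∫ s, n * (mu i Ω R T s)⁻¹ * (∫ y, u (ins i s y))) ≤
      (n + 1) ^ 2 * (∫ s, dir (fun y => u (ins i s y))) +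
        ∫ s, n / (n + 2) * (Am i Ω s * (R ^ 2 - T s ^ 2)) := by
    rw [← integral_const_mul, ← integral_const_mul,
      ← integral_add ((integrable_dir_slice hu).const_mul _) hK]
    exact integral_mono_ae (hI.const_mul _) (((integrable_dir_slice hu).const_mul _).add hK) hsl
  rw [e1, e2, e3, hM]
  rw [e4] at e6
  have e7 : J u = 2 * (∫ x, u x) - dir u := rfl
  rw [e7]
  nlinarith [e5, e6]

end Trans

end Pool.Agent.Helper71.FK
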