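import Pool.Agent.Helper71.FK.Tr
import Pool.Agent.Helper71.FK.Ball

open MeasureTheory Metric Set Filter Topology
open scoped ENNReal

namespace Pool.Agent.Helper71.FK

section Scaling

variable {N : ℕ}

lemma gradient_const_mul {u : E N → ℝ} {x : E N} (c : ℝ) (hu : DifferentiableAt ℝ u x) :
    gradient (fun x => c * u x) x = c • gradient u x := by
  unfold gradient
  rw [fderiv_const_mul hu]
  simp

lemma Tst.const_mul {Ω : Set (E N)} {u : E N → ℝ} (hu : Tst Ω u) (c : ℝ) :
    Tst Ω (fun x => c * u x) where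
  smooth := contDiff_const.mul hu.smooth
  cpt := hu.cpt.mul_left
  supp := (closure_mono fun x hx => by
    rw [Function.mem_support] at hx ⊢
    intro h
    apply hx
    rw [h, mul_zero]).trans hu.supp

lemma Tst.mono {Ω Ω' : Set (E N)} {u : E N → ℝ} (hu : Tst Ω u) (h : Ω ⊆ Ω') : Tst Ω' u :=
  ⟨hu.smooth, hu.cpt, hu.supp.trans h⟩

lemma Tst.integrable_dir {Ω : Set (E N)} {u : E N → ℝ} (hu : Tst Ω u) :
    Integrable fun x => ‖gradient u x‖ ^ 2 := by
  refine (hu.continuous_grad.norm.pow 2).integrable_of_hasCompactSupport ?_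
  refine hu.cpt_grad.mono fun x hx => ?_
  rw [Function.mem_support] at hx ⊢
  intro h
  apply hx
  simp [h]

lemma Tst.integrable_norm_grad {Ω : Set (E N)} {u : E N → ℝ} (hu : Tst Ω u) :
    Integrable fun x => ‖gradient u x‖ := by
  refine (hu.continuous_grad.norm).integrable_of_hasCompactSupport ?_
  exact hu.cpt_grad.norm

lemma dir_const_mul {u : E N → ℝ} (hu : Differentiable ℝ u) (c : ℝ) :
    dir (fun x => c * u x) = c ^ 2 * dir u := by
  unfold dir
  rw [← integral_const_mul]
  congr 1
  funext x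
  rw [gradient_const_mul c (hu x), norm_smul, mul_pow, Real.norm_eq_abs, sq_abs]

lemma J_const_mul {u : E N → ℝ} (hu : Differentiable ℝ u) (c : ℝ) :
    J (fun x => c * u x) = 2 * c * (∫ x, u x) - c ^ 2 * dir u := by
  unfold J
  rw [dir_const_mul hu, integral_const_mul]
  ring

lemma TB_mono {R R' : ℝ} (hR : 0 ≤ R) (h : R ≤ R') : TB N R ≤ TB N R' := by
  unfold TB
  have := om_pos N
  gcongr

end Scaling

/-- slice volume -/
noncomputable def Am {n : ℕ} (i : Fin (n + 1)) (Ω : Set (E (n + 1))) (s : ℝ) : ℝ :=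
  volume.real {y : E n | ins i s y ∈ Ω}

section Am

variable {n : ℕ} (i : Fin (n + 1)) {Ω : Set (E (n + 1))}

lemma Am_nonneg (s : ℝ) : 0 ≤ Am i Ω s := measureReal_nonneg

lemma Am_measurable (hΩ : MeasurableSet Ω) : Measurable (Am i Ω) :=
  (measurable_slice i hΩ).ennreal_toReal

lemma ae_slice_lt_top (hΩ : MeasurableSet Ω) (hf : volume Ω ≠ ∞) :
    ∀ᵐ s, volume {y : E n | ins i s y ∈ Ω} < ∞ := by
  refine ae_lt_top (measurable_slice i hΩ) ?_
  rw [← volume_ins i hΩ]
  exact hf

lemma lintegral_Am (hΩ : MeasurableSet Ω) (hf : volume Ω ≠ ∞) :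
    ∫⁻ s, ENNReal.ofReal (Am i Ω s) = volume Ω := by
  rw [volume_ins i hΩ]
  refine lintegral_congr_ae ?_
  filter_upwards [ae_slice_lt_top i hΩ hf] with s hs
  rw [Am, Measure.real, ENNReal.ofReal_toReal hs.ne]

lemma Am_integrable (hΩ : MeasurableSet Ω) (hf : volume Ω ≠ ∞) : Integrable (Am i Ω) := by
  refine ⟨(Am_measurable i hΩ).aestronglyMeasurable, ?_⟩
  rw [hasFiniteIntegral_iff_ofReal (Eventually.of_forall (Am_nonneg i)), lintegral_Am i hΩ hf]
  exact hf.lt_top

lemma integral_Am (hΩ : MeasurableSet Ω) (hf : volume Ω ≠ ∞) :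
    ∫ s, Am i Ω s = volume.real Ω := by
  rw [integral_eq_lintegral_of_nonneg_ae (Eventually.of_forall (Am_nonneg i))
    (Am_measurable i hΩ).aestronglyMeasurable, lintegral_Am i hΩ hf, Measure.real]

lemma measurable_coord (i : Fin (n + 1)) : Measurable fun z : E (n + 1) => z i := by
  fun_prop

lemma setIntegral_Am (hΩ : MeasurableSet Ω) (hf : volume Ω ≠ ∞) {S : Set ℝ}
    (hS : MeasurableSet S) :
    ∫ s in S, Am i Ω s = volume.real (Ω ∩ {z | z i ∈ S}) := by
  have hm : MeasurableSet (Ω ∩ {z | z i ∈ S}) := hΩ.inter (measurable_coord i hS)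
  have hf' : volume (Ω ∩ {z | z i ∈ S}) ≠ ∞ :=
    ((measure_mono inter_subset_left).trans_lt hf.lt_top).ne
  rw [← integral_Am i hm hf', ← integral_indicator hS]
  congr 1
  funext s
  by_cases hs : s ∈ S
  · rw [indicator_of_mem hs, Am, Am]
    congr 1
    ext y
    change ins i s y ∈ Ω ↔ (ins i s y ∈ Ω ∧ ins i s y i ∈ S)
    simp [hs]
  · rw [indicator_of_notMem hs, Am]
    have : {y : E n | ins i s y ∈ Ω ∩ {z | z i ∈ S}} = ∅ := by
      ext y
      change (ins i s y ∈ Ω ∧ ins i s y i ∈ S) ↔ _
      simp [hs]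
    rw [this]
    simp

/-- the integral of a function of the coordinate over `Ω` -/
lemma setIntegral_coord (hΩ : MeasurableSet Ω) (hf : volume Ω ≠ ∞) {f : ℝ → ℝ}
    (hfm : Measurable f) {C : ℝ} (hC : ∀ s, |f s| ≤ C) :
    ∫ x in Ω, f (x i) = ∫ s, Am i Ω s * f s := by
  rw [← integral_indicator hΩ, integral_ins i]
  · congr 1
    funext s
    have h1 : (fun y : E n => Ω.indicator (fun x => f (x i)) (ins i s y)) =
        {y : E n | ins i s y ∈ Ω}.indicator fun _ => f s := by
      funext y
      by_cases h : ins i s y ∈ Ω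
      · rw [indicator_of_mem h, indicator_of_mem (show y ∈ {y : E n | ins i s y ∈ Ω} from h)]
        simp
      · rw [indicator_of_notMem h,
          indicator_of_notMem (show y ∉ {y : E n | ins i s y ∈ Ω} from h)]
    have hm : MeasurableSet {y : E n | ins i s y ∈ Ω} :=
      (isClosedEmbedding_ins i s).continuous.measurable hΩ
    rw [h1, integral_indicator hm, setIntegral_const, smul_eq_mul, Am]
  · rw [integrable_indicator_iff hΩ]
    have hfin : IsFiniteMeasure (volume.restrict Ω) :=
      ⟨by rw [Measure.restrict_apply_univ]; exact hf.lt_top⟩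
    exact Integrable.of_bound (hfm.comp (measurable_coord i)).aestronglyMeasurable C
      (Eventually.of_forall fun x => hC _)

end Am

/-- the transport of slices onto the slices of the ball -/
structure Trans {n : ℕ} (i : Fin (n + 1)) (Ω : Set (E (n + 1))) (R : ℝ) (T : ℝ → ℝ) : Prop where
  isOpen : IsOpen Ω
  Rpos : 0 < R
  vol : volume Ω = ENNReal.ofReal (om (n + 1) * R ^ (n + 1))
  mono : Monotone T
  cont : Continuous T
  mem : ∀ s, T s ∈ Icc (-R) R
  surj : ∀ t ∈ Ioo (-R) R, ∃ s, T s = t
  prim : ∀ s, ∫ x in Iic s, Am i Ω x = ∫ t in Iic (T s), bt n R t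
  map : Measure.map T (volume.withDensity fun s => ENNReal.ofReal (Am i Ω s)) =
        volume.withDensity (fun t => ENNReal.ofReal (bt n R t))
  ac : ∀ s s', s ≤ s' → T s ∈ Ioo (-R) R → T s' ∈ Ioo (-R) R →
        IntervalIntegrable (fun x => Am i Ω x / bt n R (T x)) volume s s' ∧
        T s' - T s = ∫ x in s..s', Am i Ω x / bt n R (T x)
  ibp : ∀ U : ℝ → ℝ, ContDiff ℝ 1 U → HasCompactSupport U →
        (∀ s ∈ tsupport U, T s ∈ Ioo (-R) R) →
        Integrable (fun s => (Am i Ω s / bt n R (T s)) * U s) ∧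
        ∫ s, T s * deriv U s = - ∫ s, (Am i Ω s / bt n R (T s)) * U s

lemma exists_trans {n : ℕ} (i : Fin (n + 1)) {Ω : Set (E (n + 1))}
    (ho : IsOpen Ω) {R : ℝ} (hR : 0 < R)
    (hV : volume Ω = ENNReal.ofReal (om (n + 1) * R ^ (n + 1))) :
    ∃ T, Trans i Ω R T := by
  have hf : volume Ω ≠ ∞ := by rw [hV]; exact ENNReal.ofReal_ne_top
  have h1 := om_pos (n + 1)
  obtain ⟨T, h1, h2, h3, h4, h5, h6, h7, h8⟩ := exists_transport (A := Am i Ω) (β := bt n R) hR
    (Am_measurable i ho.measurableSet) (Am_integrable i ho.measurableSet hf) (Am_nonneg i)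
    (bt_measurable n R) (bt_integrable n R) (bt_continuousOn n R) (bt_nonneg n R)
    (fun t ht => bt_pos n ht) (fun t ht => bt_zero ht) (by
      rw [integral_Am i ho.measurableSet hf, integral_bt n hR.le, Measure.real, hV,
        ENNReal.toReal_ofReal (by positivity)])
  exact ⟨T, ho, hR, hV, h1, h2, h3, h4, h5, h6, h7, h8⟩

namespace Trans

variable {n : ℕ} {i : Fin (n + 1)} {Ω : Set (E (n + 1))} {R : ℝ} {T : ℝ → ℝ}

lemma fin (hT : Trans i Ω R T) : volume Ω ≠ ∞ := by rw [hT.vol]; exact ENNReal.ofReal_ne_top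

lemma meas (hT : Trans i Ω R T) : MeasurableSet Ω := hT.isOpen.measurableSet

lemma vol_real (hT : Trans i Ω R T) : volume.real Ω = om (n + 1) * R ^ (n + 1) := by
  have := om_pos (n + 1)
  have := hT.Rpos
  rw [Measure.real, hT.vol, ENNReal.toReal_ofReal (by positivity)]

lemma am_int (hT : Trans i Ω R T) : Integrable (Am i Ω) := Am_integrable i hT.meas hT.fin

lemma absle (hT : Trans i Ω R T) (s : ℝ) : |T s| ≤ R := _root_.abs_le.2 (hT.mem s)

lemma prim_high (hT : Trans i Ω R T) : ∫ t in Iic R, bt n R t = ∫ s, Am i Ω s := by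
  have h1 := intervalIntegral.integral_Iic_add_Ioi (b := R)
    (bt_integrable n R).integrableOn (bt_integrable n R).integrableOn
  have h2 : ∫ x in Ioi R, bt n R x = 0 :=
    setIntegral_eq_zero_of_forall_eq_zero fun x hx => bt_zero fun h => by
      have : R < x := hx
      linarith [h.2]
  rw [h2, add_zero, integral_bt n hT.Rpos.le] at h1
  rw [h1, integral_Am i hT.meas hT.fin, hT.vol_real]

lemma T_mem (hT : Trans i Ω R T) {x : E (n + 1)} (hx : x ∈ Ω) : T (x i) ∈ Ioo (-R) R := by
  have key : ∀ σ : ℝ, σ ≠ 0 → (Ω ∩ {z | 0 < σ * (z i - x i)}).Nonempty := by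
    intro σ hσ
    have hc : Continuous fun t : ℝ => x + (t * σ) • EuclideanSpace.single i (1 : ℝ) := by fun_prop
    have h0 : (fun t : ℝ => x + (t * σ) • EuclideanSpace.single i (1 : ℝ)) 0 ∈ Ω := by simpa using hx
    have h1 := (hT.isOpen.preimage hc).mem_nhds h0
    obtain ⟨ε, hε, hb⟩ := Metric.mem_nhds_iff.1 h1
    refine ⟨x + ((ε / 2) * σ) • EuclideanSpace.single i (1 : ℝ), ?_, ?_⟩
    · exact @hb (ε / 2) (by rw [mem_ball, Real.dist_eq, sub_zero, abs_of_pos (by linarith)]; linarith)
    · change 0 < σ * ((x + ((ε / 2) * σ) • EuclideanSpace.single i (1 : ℝ)) i - x i)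
      have : (x + ((ε / 2) * σ) • EuclideanSpace.single i (1 : ℝ)) i - x i = ε / 2 * σ := by
        simp
      rw [this]
      have : 0 < σ * σ := mul_self_pos.2 hσ
      nlinarith
  have pos : ∀ σ : ℝ, σ ≠ 0 → 0 < volume.real (Ω ∩ {z | 0 < σ * (z i - x i)}) := by
    intro σ hσ
    have ho : IsOpen (Ω ∩ {z | 0 < σ * (z i - x i)}) := by
      refine hT.isOpen.inter (isOpen_lt continuous_const ?_)
      fun_prop
    refine ENNReal.toReal_pos (ho.measure_pos _ (key σ hσ)).ne' ?_
    exact ((measure_mono inter_subset_left).trans_lt hT.fin.lt_top).ne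
  have hI := hT.prim (x i)
  rw [setIntegral_Am i hT.meas hT.fin measurableSet_Iic] at hI
  have hmem := hT.mem (x i)
  constructor
  · by_contra h
    push Not at h
    have h0 : ∫ t in Iic (T (x i)), bt n R t = 0 :=
      setIntegral_eq_zero_of_forall_eq_zero fun t ht => bt_zero fun h' => by
        have : t ≤ T (x i) := ht
        linarith [h'.1]
    rw [h0] at hI
    have h2 := pos (-1) (by norm_num)
    have h3 : volume.real (Ω ∩ {z | 0 < (-1) * (z i - x i)}) ≤
        volume.real (Ω ∩ {z | z i ∈ Iic (x i)}) := by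
      refine measureReal_mono (inter_subset_inter_right _ fun z hz => ?_)
        ((measure_mono inter_subset_left).trans_lt hT.fin.lt_top).ne
      have : 0 < (-1) * (z i - x i) := hz
      change z i ≤ x i
      linarith
    linarith
  · by_contra h
    push Not at h
    have h1 : T (x i) = R := le_antisymm hmem.2 h
    rw [h1, hT.prim_high] at hI
    have h4 := intervalIntegral.integral_Iic_add_Ioi (b := x i) hT.am_int.integrableOn
      hT.am_int.integrableOn
    rw [setIntegral_Am i hT.meas hT.fin measurableSet_Iic,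
      setIntegral_Am i hT.meas hT.fin measurableSet_Ioi, hI] at h4
    have h2 := pos 1 (by norm_num)
    have h3 : volume.real (Ω ∩ {z | 0 < 1 * (z i - x i)}) ≤
        volume.real (Ω ∩ {z | z i ∈ Ioi (x i)}) := by
      refine measureReal_mono (inter_subset_inter_right _ fun z hz => ?_)
        ((measure_mono inter_subset_left).trans_lt hT.fin.lt_top).ne
      have : 0 < 1 * (z i - x i) := hz
      change x i < z i
      linarith
    linarith

lemma transport_integral (hT : Trans i Ω R T) {f : ℝ → ℝ} (hf : Measurable f) :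
    ∫ s, Am i Ω s * f (T s) = ∫ t, bt n R t * f t := by
  have h1 : ∫ t, f t ∂(Measure.map T (volume.withDensity fun s => ENNReal.ofReal (Am i Ω s))) =
      ∫ t, f t ∂(volume.withDensity (fun t => ENNReal.ofReal (bt n R t))) := by rw [hT.map]
  rw [integral_map hT.cont.measurable.aemeasurable hf.aestronglyMeasurable,
    integral_withDensity_eq_integral_toReal_smul
      (Am_measurable i hT.meas).ennreal_ofReal (Eventually.of_forall fun x => ENNReal.ofReal_lt_top),
    integral_withDensity_eq_integral_toReal_smul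
      (bt_measurable n R).ennreal_ofReal
      (Eventually.of_forall fun x => ENNReal.ofReal_lt_top)] at h1
  simpa only [smul_eq_mul, ENNReal.toReal_ofReal (Am_nonneg i _),
    ENNReal.toReal_ofReal (bt_nonneg n R _)] using h1

/-- the ratio of slice volumes -/
noncomputable def lam {n : ℕ} (i : Fin (n + 1)) (Ω : Set (E (n + 1))) (R : ℝ) (T : ℝ → ℝ) (s : ℝ) :
    ℝ := Am i Ω s / bt n R (T s)

lemma lam_nonneg (s : ℝ) : 0 ≤ lam i Ω R T s := div_nonneg (Am_nonneg i s) (bt_nonneg _ _ _)

lemma lam_measurable (hT : Trans i Ω R T) : Measurable (lam i Ω R T) :=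
  (Am_measurable i hT.meas).div ((bt_measurable n R).comp hT.cont.measurable)

lemma integrable_T_grad (hT : Trans i Ω R T) {u : E (n + 1) → ℝ} (hu : Tst Ω u) :
    Integrable fun x => T (x i) * gradient u x i := by
  have hc : Continuous fun x => T (x i) * gradient u x i := by
    have h1 := hT.cont
    have h2 := hu.continuous_grad
    fun_prop
  refine hc.integrable_of_hasCompactSupport (hu.cpt_grad.mono fun x hx => ?_)
  rw [Function.mem_support] at hx ⊢
  intro h
  apply hx
  rw [h]; simp

lemma line (hT : Trans i Ω R T) {u : E (n + 1) → ℝ} (hu : Tst Ω u) (y : E n) :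
    Integrable (fun s => lam i Ω R T s * u (ins i s y)) ∧
    ∫ s, T s * gradient u (ins i s y) i = - ∫ s, lam i Ω R T s * u (ins i s y) := by
  have h := hT.ibp (fun s => u (ins i s y)) (hu.smooth.comp (contDiff_line i y))
    (hu.cpt.comp_isClosedEmbedding (isClosedEmbedding_line i y)) (fun s hs => by
      have h1 : ins i s y ∈ tsupport u :=
        tsupport_comp_subset_preimage u (isClosedEmbedding_line i y).continuous hs
      have := hT.T_mem (hu.supp h1)
      simpa using this)
  refine ⟨h.1, ?_⟩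
  rw [show (∫ s, lam i Ω R T s * u (ins i s y)) =
    ∫ s, (Am i Ω s / bt n R (T s)) * u (ins i s y) from rfl, ← h.2]
  congr 1
  funext s
  rw [(hasDerivAt_line i (hu.differentiable _)).deriv]

lemma integrable_lam (hT : Trans i Ω R T) {u : E (n + 1) → ℝ} (hu : Tst Ω u) (hu0 : ∀ x, 0 ≤ u x) :
    Integrable fun x => lam i Ω R T (x i) * u x := by
  rw [← integrable_ins_iff i]
  have hm : Measurable fun p : ℝ × E n => lam i Ω R T (ins i p.1 p.2 i) * u (ins i p.1 p.2) := by
    simp only [ins_same]
    exact (hT.lam_measurable.comp measurable_fst).mul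
      (hu.continuous.measurable.comp (continuous_ins i).measurable)
  rw [integrable_prod_iff' hm.aestronglyMeasurable]
  simp only [ins_same]
  constructor
  · exact Eventually.of_forall fun y => (hT.line hu y).1
  · have h1 : ∀ y : E n, ∫ s, ‖lam i Ω R T s * u (ins i s y)‖ =
        - ∫ s, T s * gradient u (ins i s y) i := by
      intro y
      rw [(hT.line hu y).2, neg_neg]
      congr 1
      funext s
      rw [Real.norm_of_nonneg (mul_nonneg (lam_nonneg s) (hu0 _))]
    simp_rw [h1]
    have h2 := ((integrable_ins_iff i).2 (hT.integrable_T_grad hu)).integral_prod_right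
    simp only [ins_same] at h2
    exact h2.neg

lemma integral_T_grad (hT : Trans i Ω R T) {u : E (n + 1) → ℝ} (hu : Tst Ω u)
    (hu0 : ∀ x, 0 ≤ u x) :
    ∫ x, T (x i) * gradient u x i = - ∫ x, lam i Ω R T (x i) * u x := by
  rw [integral_ins' i (hT.integrable_T_grad hu), integral_ins' i (hT.integrable_lam hu hu0),
    ← integral_neg]
  congr 1
  funext y
  simp only [ins_same]
  exact (hT.line hu y).2

end Trans

end Pool.Agent.Helper71.FK
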