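import Pool.Agent.Helper71.FK.Final
import Pool.Agent.Helper71.FK.Trans
import Pool.Agent.Helper41.FK.Smooth

open MeasureTheory Metric Set Filter Topology
open scoped ENNReal ContDiff

namespace Pool.Agent.Helper71.FKFinal

open Pool.Agent.Helper71.FK

variable {N : ℕ}

lemma IsTest.tst {Ω : Set (E N)} {φ : E N → ℝ} (h : IsTest Ω φ) : Tst Ω φ :=
  ⟨h.1.of_le (by exact_mod_cast le_top), h.2.1, h.2.2⟩

lemma norm_sq_le_eps {F : Type*} [NormedAddCommGroup F] (a b : F) {ε : ℝ} (hε : 0 < ε) :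
    ‖a‖ ^ 2 ≤ (1 + ε) * ‖b‖ ^ 2 + (1 + 1 / ε) * ‖a - b‖ ^ 2 := by
  have h1 : ‖a‖ ≤ ‖b‖ + ‖a - b‖ := by
    have := norm_add_le b (a - b)
    rwa [add_sub_cancel] at this
  have h2 : ‖a‖ ^ 2 ≤ (‖b‖ + ‖a - b‖) ^ 2 := by gcongr
  have h3 : 2 * (‖b‖ * ‖a - b‖) ≤ ε * ‖b‖ ^ 2 + 1 / ε * ‖a - b‖ ^ 2 := by
    have h4 := sq_nonneg (ε * ‖b‖ - ‖a - b‖)
    have h5 : 0 ≤ (ε * ‖b‖ - ‖a - b‖) ^ 2 / ε := by positivity
    have h6 : (ε * ‖b‖ - ‖a - b‖) ^ 2 / ε = ε * ‖b‖ ^ 2 + 1 / ε * ‖a - b‖ ^ 2 -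
        2 * (‖b‖ * ‖a - b‖) := by
      field_simp
      ring
    linarith
  nlinarith

lemma Tst.memLp {Ω : Set (E N)} {u : E N → ℝ} (hu : Tst Ω u) : MemLp u 2 volume :=
  hu.continuous.memLp_of_hasCompactSupport hu.cpt

lemma Tst.memLp_grad {Ω : Set (E N)} {u : E N → ℝ} (hu : Tst Ω u) :
    MemLp (gradient u) 2 volume :=
  hu.continuous_grad.memLp_of_hasCompactSupport hu.cpt_grad

lemma Tst.integrable_sq {Ω : Set (E N)} {u : E N → ℝ} (hu : Tst Ω u) :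
    Integrable fun x => u x ^ 2 := by
  have := (Tst.memLp hu).integrable_norm_pow (by norm_num)
  simpa using this

lemma h01_le {Ω : Set (E N)} {v : E N → ℝ} {g : E N → E N} (h : IsH01 Ω v g) {L : ℝ}
    (hL : 0 ≤ L) (hT : ∀ u, IsTest Ω u → L * (∫ x, u x ^ 2) ≤ dir u) :
    L * (∫ x, v x ^ 2) ≤ ∫ x, ‖g x‖ ^ 2 := by
  obtain ⟨hv, hg, φ, hφ, h1, h2⟩ := h
  have hvi : Integrable fun x => ‖v x‖ ^ 2 := hv.integrable_norm_pow (by norm_num)
  have hgi : Integrable fun x => ‖g x‖ ^ 2 := hg.integrable_norm_pow (by norm_num)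
  have key : ∀ ε : ℝ, 0 < ε → L * (∫ x, v x ^ 2) ≤ (1 + ε) ^ 2 * ∫ x, ‖g x‖ ^ 2 := by
    intro ε hε
    have hk : ∀ k, L * (∫ x, v x ^ 2) ≤ (1 + ε) ^ 2 * (∫ x, ‖g x‖ ^ 2) +
        ((1 + ε) * (1 + 1 / ε) * (∫ x, ‖gradient (φ k) x - g x‖ ^ 2) +
        L * (1 + 1 / ε) * ∫ x, (φ k x - v x) ^ 2) := by
      intro k
      have ht := (hφ k).tst
      have a1 : (∫ x, v x ^ 2) ≤ (1 + ε) * (∫ x, φ k x ^ 2) +
          (1 + 1 / ε) * ∫ x, (φ k x - v x) ^ 2 := by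
        have i1 : Integrable fun x => (φ k x - v x) ^ 2 := by
          have := ((Tst.memLp ht).sub hv).integrable_norm_pow (p := 2) (by norm_num)
          simpa using this
        rw [← integral_const_mul, ← integral_const_mul,
          ← integral_add ((Tst.integrable_sq ht).const_mul _) (i1.const_mul _)]
        refine integral_mono (by simpa using hvi)
          (((Tst.integrable_sq ht).const_mul _).add (i1.const_mul _)) fun x => ?_
        have := norm_sq_le_eps (v x) (φ k x) hε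
        simp only [Real.norm_eq_abs, sq_abs] at this
        change v x ^ 2 ≤ (1 + ε) * φ k x ^ 2 + (1 + 1 / ε) * (φ k x - v x) ^ 2
        linarith [sq_abs (v x - φ k x), show (φ k x - v x) ^ 2 = (v x - φ k x) ^ 2 by ring]
      have a2 : dir (φ k) ≤ (1 + ε) * (∫ x, ‖g x‖ ^ 2) +
          (1 + 1 / ε) * ∫ x, ‖gradient (φ k) x - g x‖ ^ 2 := by
        have i1 : Integrable fun x => ‖gradient (φ k) x - g x‖ ^ 2 :=
          ((Tst.memLp_grad ht).sub hg).integrable_norm_pow (p := 2) (by norm_num)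
        rw [← integral_const_mul, ← integral_const_mul,
          ← integral_add (hgi.const_mul _) (i1.const_mul _)]
        exact integral_mono ht.integrable_dir
          ((hgi.const_mul _).add (i1.const_mul _)) fun x => norm_sq_le_eps _ _ hε
      have a3 := hT _ (hφ k)
      have a4 := mul_le_mul_of_nonneg_left a1 hL
      have a5 : L * ((1 + ε) * (∫ x, φ k x ^ 2) + (1 + 1 / ε) * ∫ x, (φ k x - v x) ^ 2) =
        (1 + ε) * (L * ∫ x, φ k x ^ 2) + L * (1 + 1 / ε) * ∫ x, (φ k x - v x) ^ 2 := by ring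
      have a6 : (1 + ε) * (L * ∫ x, φ k x ^ 2) ≤ (1 + ε) * dir (φ k) := by gcongr
      have a7 : (1 + ε) * dir (φ k) ≤ (1 + ε) * ((1 + ε) * (∫ x, ‖g x‖ ^ 2) +
          (1 + 1 / ε) * ∫ x, ‖gradient (φ k) x - g x‖ ^ 2) := by gcongr
      nlinarith
    have hlim : Tendsto (fun k => (1 + ε) ^ 2 * (∫ x, ‖g x‖ ^ 2) +
        ((1 + ε) * (1 + 1 / ε) * (∫ x, ‖gradient (φ k) x - g x‖ ^ 2) +
        L * (1 + 1 / ε) * ∫ x, (φ k x - v x) ^ 2)) atTop
        (𝓝 ((1 + ε) ^ 2 * (∫ x, ‖g x‖ ^ 2) +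
          ((1 + ε) * (1 + 1 / ε) * 0 + L * (1 + 1 / ε) * 0))) :=
      tendsto_const_nhds.add ((h2.const_mul _).add (h1.const_mul _))
    have := ge_of_tendsto' hlim hk
    simpa using this
  have hc : Tendsto (fun ε : ℝ => (1 + ε) ^ 2 * ∫ x, ‖g x‖ ^ 2) (𝓝[>] 0)
      (𝓝 ((1 + 0) ^ 2 * ∫ x, ‖g x‖ ^ 2)) := by
    refine Tendsto.mono_left ?_ nhdsWithin_le_nhds
    have : Continuous fun ε : ℝ => (1 + ε) ^ 2 * ∫ x, ‖g x‖ ^ 2 := by fun_prop
    exact this.tendsto 0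
  have := ge_of_tendsto hc (by
    filter_upwards [self_mem_nhdsWithin] with ε hε
    exact key ε hε)
  simpa using this

lemma bddBelow_ray (Ω : Set (E N)) : BddBelow {q : ℝ | ∃ v g, IsH01 Ω v g ∧ (∫ x, v x ^ 2) ≠ 0 ∧
    q = (∫ x, ‖g x‖ ^ 2) / (∫ x, v x ^ 2)} := by
  refine ⟨0, ?_⟩
  rintro q ⟨v, g, -, -, rfl⟩
  exact div_nonneg (integral_nonneg fun x => by positivity) (integral_nonneg fun x => by positivity)

theorem lambda1_nonneg (Ω : Set (E N)) : 0 ≤ lambda1 Ω := by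
  refine Real.sInf_nonneg ?_
  rintro q ⟨v, g, -, -, rfl⟩
  exact div_nonneg (integral_nonneg fun x => by positivity) (integral_nonneg fun x => by positivity)

lemma IsTest.isH01 {Ω : Set (E N)} {φ : E N → ℝ} (h : IsTest Ω φ) : IsH01 Ω φ (gradient φ) := by
  refine ⟨Tst.memLp h.tst, Tst.memLp_grad h.tst, fun _ => φ, fun _ => h, ?_, ?_⟩ <;> simp

lemma lambda1_mul_le_test {Ω : Set (E N)} {u : E N → ℝ} (hu : IsTest Ω u) :
    lambda1 Ω * (∫ x, u x ^ 2) ≤ dir u := by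
  have h0 : 0 ≤ ∫ x, u x ^ 2 := integral_nonneg fun x => by positivity
  rcases h0.eq_or_lt with h | h
  · rw [← h, mul_zero]
    exact integral_nonneg fun x => by positivity
  · have : lambda1 Ω ≤ dir u / ∫ x, u x ^ 2 :=
      csInf_le (bddBelow_ray Ω) ⟨u, gradient u, hu.isH01, h.ne', rfl⟩
    rwa [le_div_iff₀ h] at this

/-- C^1 test functions bound lambda1 from above -/
theorem lambda1_mul_le {Ω : Set (E N)} (ho : IsOpen Ω) {u : E N → ℝ} (hu : Tst Ω u) :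
    lambda1 Ω * (∫ x, u x ^ 2) ≤ dir u := by
  have hL := lambda1_nonneg Ω
  refine le_of_forall_pos_le_add fun ε hε => ?_
  have hε' : 0 < ε / (lambda1 Ω + 1) := by positivity
  obtain ⟨v, h1, h2, h3, h4, h5⟩ := Pool.Agent.Helper41.FK.exists_smooth_approx ho hu hε'
  have h6 := lambda1_mul_le_test (Ω := Ω) (u := v) ⟨h1, h2, h3⟩
  have h7 := abs_le.1 h4
  have h8 := abs_le.1 h5
  have h9 : lambda1 Ω * ((∫ x, u x ^ 2) - ε / (lambda1 Ω + 1)) ≤ lambda1 Ω * ∫ x, v x ^ 2 :=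
    mul_le_mul_of_nonneg_left (by linarith) hL
  have h10 : lambda1 Ω * (ε / (lambda1 Ω + 1)) + ε / (lambda1 Ω + 1) = ε := by
    field_simp
  linarith

lemma exists_test {Ω : Set (E N)} (ho : IsOpen Ω) (hne : Ω.Nonempty) :
    ∃ φ, IsTest Ω φ ∧ (∀ x, 0 ≤ φ x) ∧ 0 < (∫ x, φ x ^ 2) ∧ 0 < ∫ x, φ x := by
  obtain ⟨x, hx⟩ := hne
  obtain ⟨f, h1, h2, h3, h4, h5⟩ := exists_contDiff_tsupport_subset (n := ⊤) (ho.mem_nhds hx)
  have hf0 : ∀ x, 0 ≤ f x := fun y => (h4 (mem_range_self y)).1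
  refine ⟨f, ⟨h3, h2, h1⟩, hf0, ?_, ?_⟩
  · have hc : Continuous fun x => f x ^ 2 := h3.continuous.pow 2
    refine Continuous.integral_pos_of_hasCompactSupport_nonneg_nonzero (x := x) hc ?_
      (fun y => by positivity) ?_
    · exact (h2.comp_left (g := fun t : ℝ => t ^ 2) (by simp))
    · change f x ^ 2 ≠ 0
      rw [h5]; norm_num
  · refine Continuous.integral_pos_of_hasCompactSupport_nonneg_nonzero (x := x) h3.continuous h2
      (fun y => hf0 y) ?_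
    rw [h5]; norm_num

/-- to bound lambda1 from below, smooth test functions are enough -/
theorem le_lambda1 {Ω : Set (E N)} (ho : IsOpen Ω) (hne : Ω.Nonempty) {L : ℝ}
    (h : ∀ u, IsTest Ω u → L * (∫ x, u x ^ 2) ≤ dir u) : L ≤ lambda1 Ω := by
  rcases lt_or_ge L 0 with hL | hL
  · exact hL.le.trans (lambda1_nonneg Ω)
  obtain ⟨φ, hφ, -, hpos, -⟩ := exists_test ho hne
  refine le_csInf ⟨_, φ, gradient φ, hφ.isH01, hpos.ne', rfl⟩ ?_
  rintro q ⟨v, g, hvg, hne0, rfl⟩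
  have h0 : 0 < ∫ x, v x ^ 2 :=
    lt_of_le_of_ne (integral_nonneg fun x => by positivity) hne0.symm
  rw [le_div_iff₀ h0]
  exact h01_le hvg hL h

theorem lambda1_anti {Ω Ω' : Set (E N)} (ho : IsOpen Ω)
    (hne : Ω.Nonempty) (h : Ω ⊆ Ω') : lambda1 Ω' ≤ lambda1 Ω :=
  le_lambda1 ho hne fun _ hu => lambda1_mul_le_test ⟨hu.1, hu.2.1, hu.2.2.trans h⟩

section Scaling

/-- preimage under the affine map `x ↦ z + t x` -/
def pre (z : E N) (t : ℝ) (Ω : Set (E N)) : Set (E N) := {x | z + t • x ∈ Ω}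

lemma pre_isOpen {Ω : Set (E N)} (ho : IsOpen Ω) (z : E N) (t : ℝ) : IsOpen (pre z t Ω) :=
  ho.preimage (by fun_prop)

lemma integral_aff {F : Type*} [NormedAddCommGroup F] [NormedSpace ℝ F] (f : E N → F) (z : E N)
    {t : ℝ} (ht : 0 < t) :
    ∫ x, f (z + t • x) = (t ^ N)⁻¹ • ∫ x, f x := by
  rw [Measure.integral_comp_smul volume (fun x => f (z + x)) t, finrank_euclideanSpace,
    Fintype.card_fin, abs_of_pos (by positivity), integral_add_left_eq_self]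

lemma volume_pre {Ω : Set (E N)} (z : E N) {t : ℝ} (ht : 0 < t) :
    volume (pre z t Ω) = ENNReal.ofReal ((t ^ N)⁻¹) * volume Ω := by
  have h1 : pre z t Ω = (fun x => t • x) ⁻¹' ((fun x => z + x) ⁻¹' Ω) := rfl
  rw [h1, Measure.addHaar_preimage_smul volume ht.ne', finrank_euclideanSpace, Fintype.card_fin,
    measure_preimage_add, abs_of_pos (by positivity)]

lemma volume_real_pre {Ω : Set (E N)} (z : E N) {t : ℝ} (ht : 0 < t) :
    volume.real (pre z t Ω) = (t ^ N)⁻¹ * volume.real Ω := by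
  rw [Measure.real, volume_pre z ht, ENNReal.toReal_mul, ENNReal.toReal_ofReal (by positivity)]
  rfl

lemma hasFDerivAt_aff (z : E N) (t : ℝ) (x : E N) :
    HasFDerivAt (fun x => z + t • x) (t • ContinuousLinearMap.id ℝ (E N)) x :=
  ((hasFDerivAt_id x).const_smul t).const_add z

lemma gradient_aff {u : E N → ℝ} {z : E N} {t : ℝ} {x : E N}
    (hu : DifferentiableAt ℝ u (z + t • x)) :
    gradient (fun x => u (z + t • x)) x = t • gradient u (z + t • x) := by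
  have h := hu.hasFDerivAt.comp x (hasFDerivAt_aff z t x)
  have h2 : fderiv ℝ (fun x => u (z + t • x)) x = t • fderiv ℝ u (z + t • x) := by
    rw [show (fun x => u (z + t • x)) = u ∘ fun x => z + t • x from rfl, h.fderiv]
    ext v
    simp
  unfold gradient
  rw [h2, map_smul]

lemma tst_aff {Ω : Set (E N)} {u : E N → ℝ} (hu : Tst Ω u) (z : E N) {t : ℝ} (ht : 0 < t) :
    Tst (pre z t Ω) (fun x => u (z + t • x)) where
  smooth := hu.smooth.comp (contDiff_const.add (contDiff_const_smul t))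
  cpt := by
    have he : IsClosedEmbedding fun x : E N => z + t • x :=
      (Homeomorph.addLeft z).isClosedEmbedding.comp
        (Homeomorph.smulOfNeZero t ht.ne').isClosedEmbedding
    exact hu.cpt.comp_isClosedEmbedding he
  supp := by
    intro y hy
    have h := tsupport_comp_subset_preimage u (f := fun x : E N => z + t • x) (by fun_prop) hy
    exact hu.supp h

lemma dir_aff {u : E N → ℝ} (hu : Differentiable ℝ u) (z : E N) {t : ℝ} (ht : 0 < t) :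
    dir (fun x => u (z + t • x)) = t ^ 2 * (t ^ N)⁻¹ * dir u := by
  unfold dir
  have h : ∀ x, ‖gradient (fun x => u (z + t • x)) x‖ ^ 2 =
      (fun x => t ^ 2 * ‖gradient u x‖ ^ 2) (z + t • x) := by
    intro x
    rw [gradient_aff (hu _), norm_smul, mul_pow, Real.norm_eq_abs, sq_abs]
  simp_rw [h]
  rw [integral_aff (fun x => t ^ 2 * ‖gradient u x‖ ^ 2) z ht, integral_const_mul, smul_eq_mul]
  ring

lemma pre_pre (z : E N) {t : ℝ} (ht : 0 < t) (Ω : Set (E N)) :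
    pre (-(t⁻¹ • z)) t⁻¹ (pre z t Ω) = Ω := by
  ext x
  change z + t • (-(t⁻¹ • z) + t⁻¹ • x) ∈ Ω ↔ x ∈ Ω
  rw [smul_add, smul_neg, smul_inv_smul₀ ht.ne', smul_inv_smul₀ ht.ne', add_neg_cancel_left]

lemma lambda1_pre_le {Ω : Set (E N)} (ho : IsOpen Ω) (hne : Ω.Nonempty) (z : E N) {t : ℝ}
    (ht : 0 < t) : lambda1 (pre z t Ω) / t ^ 2 ≤ lambda1 Ω := by
  refine le_lambda1 ho hne fun u hu => ?_
  have h := lambda1_mul_le (pre_isOpen ho z t) (tst_aff hu.tst z ht)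
  rw [dir_aff hu.tst.differentiable z ht, integral_aff (fun x => u x ^ 2) z ht, smul_eq_mul] at h
  have ht' : 0 < t ^ N := by positivity
  have e1 : lambda1 (pre z t Ω) * ((t ^ N)⁻¹ * ∫ x, u x ^ 2) =
      t ^ 2 * (t ^ N)⁻¹ * (lambda1 (pre z t Ω) / t ^ 2 * ∫ x, u x ^ 2) := by
    field_simp
  rw [e1] at h
  exact le_of_mul_le_mul_left h (by positivity)

lemma pre_nonempty {Ω : Set (E N)} (hne : Ω.Nonempty) (z : E N) {t : ℝ} (ht : 0 < t) :
    (pre z t Ω).Nonempty := by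
  obtain ⟨x, hx⟩ := hne
  refine ⟨t⁻¹ • (x - z), ?_⟩
  change z + t • (t⁻¹ • (x - z)) ∈ Ω
  rw [smul_inv_smul₀ ht.ne', add_sub_cancel]
  exact hx

theorem lambda1_pre {Ω : Set (E N)} (ho : IsOpen Ω) (hne : Ω.Nonempty) (z : E N) {t : ℝ}
    (ht : 0 < t) : lambda1 (pre z t Ω) = t ^ 2 * lambda1 Ω := by
  have h1 := lambda1_pre_le ho hne z ht
  have h2 := lambda1_pre_le (pre_isOpen ho z t) (pre_nonempty hne z ht) (-(t⁻¹ • z))
    (inv_pos.2 ht)
  rw [pre_pre z ht] at h2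
  rw [div_le_iff₀ (by positivity)] at h1 h2
  refine le_antisymm (by linarith) ?_
  have h3 : t ^ 2 * lambda1 Ω ≤ t ^ 2 * (lambda1 (pre z t Ω) * t⁻¹ ^ 2) := by gcongr
  have h4 : t ^ 2 * (lambda1 (pre z t Ω) * t⁻¹ ^ 2) = lambda1 (pre z t Ω) := by
    field_simp
  linarith

lemma pre_ball (x : E N) {t : ℝ} (ht : 0 < t) (r : ℝ) : pre x t (ball x r) = ball 0 (r / t) := by
  ext y
  change x + t • y ∈ ball x r ↔ _
  rw [mem_ball_iff_norm, add_sub_cancel_left, norm_smul, mem_ball_zero_iff, Real.norm_eq_abs,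
    abs_of_pos ht, lt_div_iff₀ ht, mul_comm]

theorem lambda1_ball (x : E N) {r : ℝ} (hr : 0 < r) :
    lambda1 (ball x r) = lambda1 (ball (0 : E N) 1) / r ^ 2 := by
  have h := lambda1_pre (Ω := ball x r) isOpen_ball (nonempty_ball.2 hr) x hr
  rw [pre_ball x hr, div_self hr.ne'] at h
  rw [h, mul_div_cancel_left₀ _ (by positivity)]

end Scaling

end Pool.Agent.Helper71.FKFinal
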