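import Pool.Agent.Helper71.FK.Chain

open MeasureTheory Metric Set Filter Topology
open scoped ENNReal ContDiff

namespace Pool.Agent.Helper71.FKFinal

open Pool.Agent.Helper71.FK

variable {N : ℕ}

lemma om_eq (N : ℕ) : volume.real (ball (0 : EuclideanSpace ℝ (Fin N)) 1) = om N := rfl

/-- facts on the radius of the ball of the same volume -/
lemma star_facts (hN : 1 ≤ N) {Ω : Set (E N)} (h0 : 0 < volume Ω) (hf : volume Ω < ⊤) :
    0 < starRadius Ω ∧ volume Ω = ENNReal.ofReal (om N * starRadius Ω ^ N) ∧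
      volume.real Ω = om N * starRadius Ω ^ N := by
  have hom := om_pos N
  have hr : 0 < volume.real Ω := ENNReal.toReal_pos h0.ne' hf.ne
  have hq : 0 < volume.real Ω / om N := div_pos hr hom
  have h1 : starRadius Ω ^ N = volume.real Ω / om N := by
    unfold starRadius
    rw [om_eq]
    exact Real.rpow_inv_natCast_pow hq.le (by omega)
  have h2 : volume.real Ω = om N * starRadius Ω ^ N := by
    rw [h1]; field_simp
  refine ⟨?_, ?_, h2⟩
  · unfold starRadius
    rw [om_eq]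
    exact Real.rpow_pos_of_pos hq _
  · rw [← h2, Measure.real, ENNReal.ofReal_toReal hf.ne]

lemma starRadius_eq (hN : 1 ≤ N) {Ω : Set (E N)} {r : ℝ} (hr : 0 ≤ r)
    (hV : volume Ω = ENNReal.ofReal (om N * r ^ N)) : starRadius Ω = r := by
  have hom := om_pos N
  unfold starRadius
  rw [om_eq, Measure.real, hV, ENNReal.toReal_ofReal (by positivity), mul_div_cancel_left₀ _ hom.ne']
  exact Real.pow_rpow_inv_natCast hr (by omega)

lemma asym_bddBelow (Ω : Set (E N)) : BddBelow {t : ℝ | ∃ (x : E N) (r : ℝ), 0 < r ∧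
    volume (ball x r) = volume Ω ∧
    t = volume.real (symmDiff Ω (ball x r)) / volume.real Ω} := by
  refine ⟨0, ?_⟩
  rintro t ⟨x, r, -, -, rfl⟩
  exact div_nonneg measureReal_nonneg measureReal_nonneg

lemma asym_nonneg (Ω : Set (E N)) : 0 ≤ asym Ω := by
  refine Real.sInf_nonneg ?_
  rintro t ⟨x, r, -, -, rfl⟩
  exact div_nonneg measureReal_nonneg measureReal_nonneg

lemma asym_le {Ω : Set (E N)} {x : E N} {r : ℝ} (hr : 0 < r)
    (h : volume (ball x r) = volume Ω) :
    asym Ω ≤ volume.real (symmDiff Ω (ball x r)) / volume.real Ω :=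
  csInf_le (asym_bddBelow Ω) ⟨x, r, hr, h, rfl⟩

lemma symmDiff_pre (z : E N) {t : ℝ} (ht : 0 < t) (Ω : Set (E N)) (b : E N) :
    symmDiff (pre z t Ω) (ball b 1) = pre z t (symmDiff Ω (ball (z + t • b) t)) := by
  have h : ball b 1 = pre z t (ball (z + t • b) t) := by
    ext y
    change _ ↔ z + t • y ∈ ball (z + t • b) t
    rw [mem_ball, mem_ball, dist_eq_norm, dist_eq_norm, add_sub_add_left_eq_sub, ← smul_sub,
      norm_smul, Real.norm_eq_abs, abs_of_pos ht]
    constructor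
    · intro h
      nlinarith
    · intro h
      by_contra h2
      push Not at h2
      nlinarith
  rw [h]
  rfl

/-- reduction of the quantitative inequality to sets of the volume of the unit ball -/
theorem deficit_ge (hN : 1 ≤ N) {c : ℝ} (hc : 0 ≤ c)
    (H : ∀ Ω : Set (E N), IsOpen Ω → volume Ω = ENNReal.ofReal (om N) → ∀ η : ℝ, 0 < η →
      ∃ b : E N,
      c * lambda1 (ball (0 : E N) 1) * (volume.real (symmDiff Ω (ball b 1)) / om N) ^ 2 ≤
        lambda1 Ω - lambda1 (ball (0 : E N) 1) + η)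
    {Ω : Set (E N)} (ho : IsOpen Ω) (h0 : 0 < volume Ω) (hf : volume Ω < ⊤) :
    c * ballValue N * asym Ω ^ 2 ≤ deficit Ω := by
  obtain ⟨hR, hV, hVr⟩ := star_facts hN h0 hf
  set R := starRadius Ω with hRdef
  have hom := om_pos N
  have hRN : 0 < R ^ N := by positivity
  have hne : Ω.Nonempty := nonempty_of_measure_ne_zero h0.ne'
  have hV1 : volume (pre 0 R Ω) = ENNReal.ofReal (om N) := by
    rw [volume_pre 0 hR, hV, ← ENNReal.ofReal_mul (by positivity)]
    congr 1
    field_simp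
  have hA0 := asym_nonneg Ω
  have hLB := lambda1_nonneg (ball (0 : E N) 1)
  have h1 : c * lambda1 (ball (0 : E N) 1) * asym Ω ^ 2 ≤
      R ^ 2 * lambda1 Ω - lambda1 (ball (0 : E N) 1) := by
    refine le_of_forall_pos_le_add fun η hη => ?_
    obtain ⟨b, hb⟩ := H _ (pre_isOpen ho 0 R) hV1 η hη
    rw [lambda1_pre ho hne 0 hR, symmDiff_pre 0 hR, volume_real_pre 0 hR, zero_add] at hb
    have ha : asym Ω ≤ (R ^ N)⁻¹ * volume.real (symmDiff Ω (ball (R • b) R)) / om N := by
      refine (asym_le (x := R • b) hR ?_).trans (le_of_eq ?_)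
      · rw [vol_ball hN _ hR.le, hV]
      · rw [hVr]
        field_simp
    refine le_trans ?_ hb
    have : asym Ω ^ 2 ≤ ((R ^ N)⁻¹ * volume.real (symmDiff Ω (ball (R • b) R)) / om N) ^ 2 := by
      gcongr
    exact mul_le_mul_of_nonneg_left this (mul_nonneg hc hLB)
  have hN0 : (N : ℝ) ≠ 0 := by
    have : N ≠ 0 := by omega
    exact_mod_cast this
  have h2 : volume.real Ω ^ (2 / (N : ℝ)) = om N ^ (2 / (N : ℝ)) * R ^ 2 := by
    rw [hVr, Real.mul_rpow hom.le hRN.le, ← Real.rpow_natCast R N, ← Real.rpow_mul hR.le,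
      mul_div_cancel₀ _ hN0]
    norm_num
  have h3 : deficit Ω = om N ^ (2 / (N : ℝ)) *
      (R ^ 2 * lambda1 Ω - lambda1 (ball (0 : E N) 1)) := by
    unfold deficit
    rw [← hRdef, h2, lambda1_ball 0 hR]
    field_simp
  have h4 : 0 ≤ om N ^ (2 / (N : ℝ)) := Real.rpow_nonneg hom.le _
  rw [h3]
  calc c * ballValue N * asym Ω ^ 2 =
      om N ^ (2 / (N : ℝ)) * (c * lambda1 (ball (0 : E N) 1) * asym Ω ^ 2) := by
        unfold ballValue
        rw [om_eq]
        ring
    _ ≤ _ := mul_le_mul_of_nonneg_left h1 h4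

lemma ballValue_nonneg (N : ℕ) : 0 ≤ ballValue N :=
  mul_nonneg (Real.rpow_nonneg (om_pos N).le _) (lambda1_nonneg _)

/-- lower bound for the optimal constant -/
theorem gammaStar_ge {c : ℝ}
    (H : ∀ Ω : Set (E N), IsOpen Ω → 0 < volume Ω → volume Ω < ⊤ →
      c * asym Ω ^ 2 ≤ deficit Ω)
    (hne : ∃ Ω : Set (E N), IsOpen Ω ∧ 0 < volume Ω ∧ volume Ω < ⊤ ∧ 0 < asym Ω) :
    c ≤ gammaStar N := by
  obtain ⟨Ω, h1, h2, h3, h4⟩ := hne
  refine le_csInf ⟨_, Ω, h1, h2, h3, h4, rfl⟩ ?_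
  rintro q ⟨Ω, h1, h2, h3, h4, rfl⟩
  rw [le_div_iff₀ (by positivity)]
  exact H Ω h1 h2 h3

/-- upper bound for the optimal constant -/
theorem gammaStar_le {c : ℝ}
    (H : ∀ Ω : Set (E N), IsOpen Ω → 0 < volume Ω → volume Ω < ⊤ →
      c * asym Ω ^ 2 ≤ deficit Ω) {Ω : Set (E N)} (h1 : IsOpen Ω) (h2 : 0 < volume Ω)
    (h3 : volume Ω < ⊤) (h4 : 0 < asym Ω) : gammaStar N ≤ deficit Ω / asym Ω ^ 2 := by
  refine csInf_le ⟨c, ?_⟩ ⟨Ω, h1, h2, h3, h4, rfl⟩
  rintro q ⟨Ω, h1, h2, h3, h4, rfl⟩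
  rw [le_div_iff₀ (by positivity)]
  exact H Ω h1 h2 h3

/-- upper bound from an example with a ball of volume fraction `a` inside -/
theorem gammaStar_le_of_balls (hN : 1 ≤ N) {c : ℝ}
    (H : ∀ Ω : Set (E N), IsOpen Ω → 0 < volume Ω → volume Ω < ⊤ →
      c * asym Ω ^ 2 ≤ deficit Ω) {a : ℝ} (ha : 0 < a) (ha1 : a < 1)
    (hex : ∃ Ω : Set (E N), IsOpen Ω ∧ volume Ω = ENNReal.ofReal (om N) ∧
      ball (0 : E N) (a ^ ((N : ℝ)⁻¹)) ⊆ Ω ∧ 2 * (1 - a) ≤ asym Ω) :
    gammaStar N ≤ (a ^ (-(2 / (N : ℝ))) - 1) / (4 * (1 - a) ^ 2) * ballValue N := by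
  obtain ⟨Ω, h1, h2, h3, h4⟩ := hex
  have hom := om_pos N
  have hr : 0 < a ^ ((N : ℝ)⁻¹) := Real.rpow_pos_of_pos ha _
  have h5 : 0 < volume Ω := by rw [h2]; exact ENNReal.ofReal_pos.2 hom
  have h6 : volume Ω < ⊤ := by rw [h2]; exact ENNReal.ofReal_lt_top
  have h7 : 0 < asym Ω := lt_of_lt_of_le (by linarith) h4
  refine (gammaStar_le H h1 h5 h6 h7).trans ?_
  have hs : starRadius Ω = 1 := starRadius_eq hN zero_le_one (by rw [h2, one_pow, mul_one])
  have h8 : lambda1 Ω ≤ a ^ (-(2 / (N : ℝ))) * lambda1 (ball (0 : E N) 1) := by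
    refine (lambda1_anti isOpen_ball (nonempty_ball.2 hr) h3).trans (le_of_eq ?_)
    rw [lambda1_ball 0 hr, ← Real.rpow_natCast, ← Real.rpow_mul ha.le, div_eq_mul_inv,
      ← Real.rpow_neg ha.le, mul_comm]
    congr 2
    push_cast
    ring
  have h9 : deficit Ω ≤ (a ^ (-(2 / (N : ℝ))) - 1) * ballValue N := by
    unfold deficit ballValue
    rw [hs, om_eq, Measure.real, h2, ENNReal.toReal_ofReal hom.le]
    have h10 : 0 ≤ om N ^ (2 / (N : ℝ)) := Real.rpow_nonneg hom.le _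
    nlinarith [mul_le_mul_of_nonneg_left h8 h10]
  have h11 : 0 ≤ (a ^ (-(2 / (N : ℝ))) - 1) * ballValue N := by
    refine mul_nonneg ?_ (ballValue_nonneg N)
    have : 1 ≤ a ^ (-(2 / (N : ℝ))) := Real.one_le_rpow_of_pos_of_le_one_of_nonpos ha ha1.le (by
      have : 0 ≤ 2 / (N : ℝ) := by positivity
      linarith)
    linarith
  have h12 : 0 < 4 * (1 - a) ^ 2 := by
    have : 0 < 1 - a := by linarith
    positivity
  calc deficit Ω / asym Ω ^ 2 ≤ ((a ^ (-(2 / (N : ℝ))) - 1) * ballValue N) / asym Ω ^ 2 := by gcongr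
    _ ≤ ((a ^ (-(2 / (N : ℝ))) - 1) * ballValue N) / (4 * (1 - a) ^ 2) := by
      apply div_le_div_of_nonneg_left h11 h12
      nlinarith
    _ = _ := by ring

/-- combination of the two parts -/
theorem main_norm (hN : 1 ≤ N) {K s0 C : ℝ} (hs0 : 0 < s0) (hs1 : s0 ≤ 1) (_hK : 0 ≤ K)
    (hC1 : (2 ^ (N + 2) * K + 2 ^ (N + 1) * (N + 1) + 2 ^ (N + 2) * N) ^ 2 ≤ C)
    (hC2 : 4 / s0 ≤ C)
    (hII : ∀ {Ω : Set (E N)} {u : ℕ → E N → ℝ} {w : E N → ℝ} {g : E N → E N},
      Pair Ω u w g → volume Ω = ENNReal.ofReal (om N) → ∀ d : ℝ, 0 < d →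
      TB N 1 - (∫ x, w x) ≤ d → d ≤ om N * s0 →
      ∃ b : E N, (∫ p in (1 / 4 : ℝ)..(1 / 2),
        volume.real (symmDiff {y | 1 - 2 * N * w y < p} (ball b (Real.sqrt p)))) ≤
          K * om N * Real.sqrt (d / om N))
    (hI : ∀ {Ω : Set (E N)} {u : ℕ → E N → ℝ} {w : E N → ℝ} {g : E N → E N},
      Pair Ω u w g → volume Ω = ENNReal.ofReal (om N) → ∀ b : E N,
      volume.real (symmDiff Ω (ball b 1)) ≤
      2 ^ (N + 2) * (∫ p in (1 / 4 : ℝ)..(1 / 2),
        volume.real (symmDiff {y | 1 - 2 * N * w y < p} (ball b (Real.sqrt p)))) +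
      2 ^ (N + 1) * Real.sqrt (om N * (N * (N + 2) * (TB N 1 - ∫ x, w x))) +
      2 ^ (N + 2) * N * (TB N 1 - ∫ x, w x))
    (hex : ∀ {Ω : Set (E N)}, IsOpen Ω → volume Ω ≠ ⊤ → ∃ u w g, Pair Ω u w g)
    (Ω : Set (E N)) (ho : IsOpen Ω) (hV : volume Ω = ENNReal.ofReal (om N)) (η : ℝ)
    (hη : 0 < η) :
    ∃ b : E N, 2 * N / C * lambda1 (ball (0 : E N) 1) *
      (volume.real (symmDiff Ω (ball b 1)) / om N) ^ 2 ≤
        lambda1 Ω - lambda1 (ball (0 : E N) 1) + η := by
  have hom := om_pos N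
  have hN0 : (1 : ℝ) ≤ N := by exact_mod_cast hN
  have hf : volume Ω ≠ ⊤ := by rw [hV]; exact ENNReal.ofReal_ne_top
  obtain ⟨u, w, g, hp⟩ := hex ho hf
  have hch := chain hN hV hp
  have hle := Pair.le_TB hN hp hV
  have hLB := lambda1_nonneg (ball (0 : E N) 1)
  have hC0 : 0 < C := lt_of_lt_of_le (by positivity) hC2
  set L := lambda1 (ball (0 : E N) 1) with hL
  set δ := TB N 1 - ∫ x, w x with hδ
  have hδ0 : 0 ≤ δ := by linarith
  set x := δ / om N with hx
  have hx0 : 0 ≤ x := by positivity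
  have hδx : δ = om N * x := by rw [hx]; field_simp
  -- it is enough to find `y` close to `x`
  have key : ∃ y : ℝ, 0 ≤ y ∧ L * (2 * N * y) ≤ L * (2 * N * x) + η ∧
      ∃ b : E N, (volume.real (symmDiff Ω (ball b 1)) / om N) ^ 2 ≤ C * y := by
    rcases lt_or_ge x s0 with hxs | hxs
    · -- choose `d`
      set e : ℝ := η / (2 * N * L + 1) with he
      have he0 : 0 < e := by positivity
      obtain ⟨y, hxy, hyle⟩ : ∃ y, x < y ∧ y ≤ min s0 (x + e) :=
        ⟨min s0 (x + e), lt_min hxs (by linarith), le_rfl⟩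
      have hys : y ≤ s0 := hyle.trans (min_le_left _ _)
      have hye : y ≤ x + e := hyle.trans (min_le_right _ _)
      have hy0 : 0 < y := lt_of_le_of_lt hx0 hxy
      refine ⟨y, hy0.le, ?_, ?_⟩
      · have h1 : L * (2 * N * y) ≤ L * (2 * N * (x + e)) := by gcongr
        have h2 : L * (2 * N * e) ≤ η := by
          have : L * (2 * N * e) = (2 * N * L) / (2 * N * L + 1) * η := by
            rw [he]; ring
          rw [this]
          have h3 : (2 * N * L) / (2 * N * L + 1) ≤ 1 := by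
            rw [div_le_one (by positivity)]; linarith
          nlinarith
        linarith
      obtain ⟨b, hb⟩ := hII hp hV (om N * y) (by positivity)
        (by rw [← hδ, hδx]; gcongr) (by gcongr)
      refine ⟨b, ?_⟩
      have h2 := hI hp hV b
      rw [← hδ] at h2
      rw [mul_div_cancel_left₀ _ hom.ne'] at hb
      set q := Real.sqrt y with hq
      have hq0 : 0 ≤ q := Real.sqrt_nonneg y
      have hq2 : q ^ 2 = y := Real.sq_sqrt hy0.le
      have hq1 : q ≤ 1 := Real.sqrt_le_one.2 (hys.trans hs1)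
      have h3 : Real.sqrt (om N * (N * (N + 2) * δ)) ≤ om N * (N + 1) * q := by
        rw [hδx]
        apply Real.sqrt_le_iff.2
        refine ⟨by positivity, ?_⟩
        rw [mul_pow, mul_pow, hq2]
        have h0 : 0 ≤ om N ^ 2 * x := by positivity
        have h00 : 0 ≤ om N ^ 2 * (y - x) := mul_nonneg (by positivity) (by linarith)
        have h000 : 0 ≤ om N ^ 2 * (y - x) * (N + 1) ^ 2 := by positivity
        nlinarith
      have h4 : δ ≤ om N * q := by
        rw [hδx]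
        have : y ≤ q := by rw [← hq2]; nlinarith
        have : x ≤ q := by linarith
        gcongr
      have h5 : volume.real (symmDiff Ω (ball b 1)) ≤
          (2 ^ (N + 2) * K + 2 ^ (N + 1) * (N + 1) + 2 ^ (N + 2) * N) * (om N * q) := by
        calc volume.real (symmDiff Ω (ball b 1)) ≤ _ := h2
          _ ≤ 2 ^ (N + 2) * (K * om N * q) + 2 ^ (N + 1) * (om N * (N + 1) * q) +
              2 ^ (N + 2) * N * (om N * q) := by gcongr
          _ = _ := by ring
      have h6 : volume.real (symmDiff Ω (ball b 1)) / om N ≤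
          (2 ^ (N + 2) * K + 2 ^ (N + 1) * (N + 1) + 2 ^ (N + 2) * N) * q := by
        rw [div_le_iff₀ hom]
        linarith
      calc (volume.real (symmDiff Ω (ball b 1)) / om N) ^ 2 ≤
          ((2 ^ (N + 2) * K + 2 ^ (N + 1) * (N + 1) + 2 ^ (N + 2) * N) * q) ^ 2 := by
            have : 0 ≤ volume.real (symmDiff Ω (ball b 1)) / om N :=
              div_nonneg measureReal_nonneg hom.le
            gcongr
        _ = (2 ^ (N + 2) * K + 2 ^ (N + 1) * (N + 1) + 2 ^ (N + 2) * N) ^ 2 * y := by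
            rw [mul_pow, hq2]
        _ ≤ C * y := by gcongr
    · refine ⟨x, hx0, by linarith, 0, ?_⟩
      have h1 : volume.real (symmDiff Ω (ball (0 : E N) 1)) ≤ 2 * om N := by
        have h2 : volume.real Ω = om N := by
          rw [Measure.real, hV, ENNReal.toReal_ofReal hom.le]
        have h3 : symmDiff Ω (ball (0 : E N) 1) ⊆ Ω ∪ ball (0 : E N) 1 := by
          intro y hy
          rcases hy with hy | hy
          · exact Or.inl hy.1
          · exact Or.inr hy.1
        have h4 := measureReal_union_le (μ := volume) Ω (ball (0 : E N) 1)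
        have h5 := measureReal_mono h3 (measure_union_ne_top hf measure_ball_lt_top.ne)
        have h6 : volume.real (ball (0 : E N) 1) = om N := rfl
        linarith
      have h2 : volume.real (symmDiff Ω (ball (0 : E N) 1)) / om N ≤ 2 := by
        rw [div_le_iff₀ hom]; linarith
      have h3 : 0 ≤ volume.real (symmDiff Ω (ball (0 : E N) 1)) / om N :=
        div_nonneg measureReal_nonneg hom.le
      calc (volume.real (symmDiff Ω (ball (0 : E N) 1)) / om N) ^ 2 ≤ 2 ^ 2 := by gcongr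
        _ = 4 / s0 * s0 := by field_simp; norm_num
        _ ≤ C * x := by gcongr
  obtain ⟨y, hy0, hyη, b, hb⟩ := key
  refine ⟨b, ?_⟩
  calc 2 * N / C * L * (volume.real (symmDiff Ω (ball b 1)) / om N) ^ 2 ≤
      2 * N / C * L * (C * y) := by gcongr
    _ = L * (2 * N * y) := by field_simp
    _ ≤ L * (2 * N * x) + η := hyη
    _ ≤ _ := by linarith

end Pool.Agent.Helper71.FKFinal
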