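import Pool.Agent.Helper71.FK.Defs

open MeasureTheory Metric Set Filter Topology
open scoped ENNReal

namespace Pool.Agent.Helper71.FK

section Ins

variable {n : ℕ} (i : Fin (n + 1))

/-- insertion of the value `s` at the coordinate `i` -/
noncomputable def ins (s : ℝ) (y : E n) : E (n + 1) :=
  WithLp.toLp 2 (i.insertNth (α := fun _ => ℝ) s y.ofLp)

@[simp] lemma ins_same (s : ℝ) (y : E n) : ins i s y i = s := by
  simp [ins]

@[simp] lemma ins_succAbove (s : ℝ) (y : E n) (j : Fin n) :
    ins i s y (i.succAbove j) = y j := by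
  simp [ins]

/-- the linear isometric embedding of the hyperplane -/
noncomputable def iota : E n →ₗᵢ[ℝ] E (n + 1) where
  toFun y := ins i 0 y
  map_add' x y := by
    ext k
    refine Fin.succAboveCases i ?_ (fun j => ?_) k <;> simp
  map_smul' c y := by
    ext k
    refine Fin.succAboveCases i ?_ (fun j => ?_) k <;> simp
  norm_map' y := by
    rw [EuclideanSpace.norm_eq, EuclideanSpace.norm_eq, Fin.sum_univ_succAbove _ i]
    simp

lemma ins_eq (s : ℝ) (y : E n) :
    ins i s y = s • EuclideanSpace.single i (1 : ℝ) + iota i y := by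
  ext k
  refine Fin.succAboveCases i ?_ (fun j => ?_) k
  · simp [iota]
  · simp [iota, Fin.succAbove_ne]

lemma norm_ins_sq (s : ℝ) (y : E n) : ‖ins i s y‖ ^ 2 = s ^ 2 + ‖y‖ ^ 2 := by
  rw [EuclideanSpace.norm_sq_eq, EuclideanSpace.norm_sq_eq, Fin.sum_univ_succAbove _ i]
  simp

lemma continuous_ins : Continuous fun p : ℝ × E n => ins i p.1 p.2 := by
  simp only [ins_eq]
  exact (continuous_fst.smul continuous_const).add ((iota i).continuous.comp continuous_snd)

/-- the measurable equivalence -/
noncomputable def insE : ℝ × E n ≃ᵐ E (n + 1) :=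
  ((MeasurableEquiv.refl ℝ).prodCongr (MeasurableEquiv.toLp 2 (Fin n → ℝ)).symm).trans
    ((MeasurableEquiv.piFinSuccAbove (fun _ => ℝ) i).symm.trans (MeasurableEquiv.toLp 2 _))

lemma insE_apply (p : ℝ × E n) : insE i p = ins i p.1 p.2 := rfl

lemma insE_mp : MeasurePreserving (insE i) (volume.prod volume) volume := by
  have h1 : MeasurePreserving ((MeasurableEquiv.refl ℝ).prodCongr
      (MeasurableEquiv.toLp 2 (Fin n → ℝ)).symm) (volume.prod volume) (volume.prod volume) :=
    (MeasurePreserving.id volume).prod (EuclideanSpace.volume_preserving_symm_measurableEquiv_toLp _)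
  have h2 : MeasurePreserving (MeasurableEquiv.piFinSuccAbove (fun _ => ℝ) i).symm
      (volume.prod volume) volume :=
    (volume_preserving_piFinSuccAbove (fun _ : Fin (n + 1) => ℝ) i).symm _
  have h3 : MeasurePreserving (MeasurableEquiv.toLp 2 (Fin (n + 1) → ℝ)) volume volume :=
    (EuclideanSpace.volume_preserving_symm_measurableEquiv_toLp _).symm _
  exact h3.comp (h2.comp h1)

lemma integrable_ins_iff {F : Type*} [NormedAddCommGroup F] {f : E (n + 1) → F} :
    Integrable (fun p : ℝ × E n => f (ins i p.1 p.2)) (volume.prod volume) ↔ Integrable f :=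
  (insE_mp i).integrable_comp_emb (insE i).measurableEmbedding

lemma integral_ins {f : E (n + 1) → ℝ} (hf : Integrable f) :
    ∫ x, f x = ∫ s, ∫ y, f (ins i s y) := by
  rw [← (insE_mp i).integral_comp' f]
  exact integral_prod (fun p : ℝ × E n => f (ins i p.1 p.2)) ((integrable_ins_iff i).2 hf)

lemma integral_ins' {f : E (n + 1) → ℝ} (hf : Integrable f) :
    ∫ x, f x = ∫ y, ∫ s, f (ins i s y) := by
  rw [← (insE_mp i).integral_comp' f]
  exact integral_prod_symm (fun p : ℝ × E n => f (ins i p.1 p.2)) ((integrable_ins_iff i).2 hf)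

lemma integrable_integral_ins {f : E (n + 1) → ℝ} (hf : Integrable f) :
    Integrable fun s => ∫ y, f (ins i s y) :=
  ((integrable_ins_iff i).2 hf).integral_prod_left

lemma ae_integrable_ins {f : E (n + 1) → ℝ} (hf : Integrable f) :
    ∀ᵐ s, Integrable fun y => f (ins i s y) :=
  ((integrable_ins_iff i).2 hf).prod_right_ae

lemma volume_ins {S : Set (E (n + 1))} (hS : MeasurableSet S) :
    volume S = ∫⁻ s, volume {y | ins i s y ∈ S} := by
  rw [← (insE_mp i).measure_preimage hS.nullMeasurableSet,
    Measure.prod_apply ((insE i).measurable hS)]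
  rfl

lemma measurable_slice {S : Set (E (n + 1))} (hS : MeasurableSet S) :
    Measurable fun s => volume {y | ins i s y ∈ S} :=
  measurable_measure_prodMk_left (ν := (volume : Measure (E n))) ((insE i).measurable hS)

end Ins

section Grad

variable {n : ℕ} (i : Fin (n + 1)) {N : ℕ}

lemma inner_grad (u : E N → ℝ) (x v : E N) : inner ℝ (gradient u x) v = fderiv ℝ u x v := by
  rw [gradient, InnerProductSpace.toDual_symm_apply]

lemma grad_apply (u : E N → ℝ) (x : E N) (i : Fin N) :
    gradient u x i = fderiv ℝ u x (EuclideanSpace.single i 1) := by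
  rw [← inner_grad, EuclideanSpace.inner_single_right]
  simp

lemma norm_grad (u : E N → ℝ) (x : E N) : ‖gradient u x‖ = ‖fderiv ℝ u x‖ := by
  rw [gradient, LinearIsometryEquiv.norm_map]

lemma continuous_grad {u : E N → ℝ} (hu : ContDiff ℝ 1 u) : Continuous (gradient u) :=
  (InnerProductSpace.toDual ℝ (E N)).symm.continuous.comp (hu.continuous_fderiv (by norm_num))

lemma iota_single (j : Fin n) : iota i (EuclideanSpace.single j (1:ℝ)) =
    EuclideanSpace.single (i.succAbove j) (1:ℝ) := by
  ext k
  refine Fin.succAboveCases i ?_ (fun l => ?_) k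
  · simp [iota, (Fin.succAbove_ne i j).symm]
  · simp [iota]

lemma hasFDerivAt_slice {u : E (n + 1) → ℝ} {s : ℝ} {y : E n}
    (hu : DifferentiableAt ℝ u (ins i s y)) :
    HasFDerivAt (fun y => u (ins i s y))
      ((fderiv ℝ u (ins i s y)).comp (iota i).toContinuousLinearMap) y := by
  have h : HasFDerivAt (fun y => ins i s y) (iota i).toContinuousLinearMap y := by
    simp only [ins_eq]
    exact ((iota i).toContinuousLinearMap.hasFDerivAt).const_add _
  exact hu.hasFDerivAt.comp y h

lemma hasDerivAt_line {u : E (n + 1) → ℝ} {s : ℝ} {y : E n}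
    (hu : DifferentiableAt ℝ u (ins i s y)) :
    HasDerivAt (fun s => u (ins i s y)) (gradient u (ins i s y) i) s := by
  have h : HasDerivAt (fun s => ins i s y) (EuclideanSpace.single i (1:ℝ)) s := by
    simp only [ins_eq]
    simpa using ((hasDerivAt_id s).smul_const (EuclideanSpace.single i (1:ℝ))).add_const (iota i y)
  rw [grad_apply]
  exact hu.hasFDerivAt.comp_hasDerivAt s h

lemma grad_slice {u : E (n + 1) → ℝ} {s : ℝ} {y : E n}
    (hu : DifferentiableAt ℝ u (ins i s y)) (j : Fin n) :
    gradient (fun y => u (ins i s y)) y j = gradient u (ins i s y) (i.succAbove j) := by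
  rw [grad_apply, grad_apply, (hasFDerivAt_slice i hu).fderiv]
  simp [iota_single]

lemma norm_grad_sq {u : E (n + 1) → ℝ} {s : ℝ} {y : E n}
    (hu : DifferentiableAt ℝ u (ins i s y)) :
    ‖gradient u (ins i s y)‖ ^ 2 =
      (gradient u (ins i s y) i) ^ 2 + ‖gradient (fun y => u (ins i s y)) y‖ ^ 2 := by
  rw [EuclideanSpace.norm_sq_eq, EuclideanSpace.norm_sq_eq, Fin.sum_univ_succAbove _ i]
  simp [grad_slice i hu]

lemma contDiff_ins (s : ℝ) : ContDiff ℝ 1 (fun y : E n => ins i s y) := by
  simp only [ins_eq]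
  exact contDiff_const.add (iota i).contDiff

lemma contDiff_line (y : E n) : ContDiff ℝ 1 (fun s : ℝ => ins i s y) := by
  simp only [ins_eq]
  exact (contDiff_id.smul contDiff_const).add contDiff_const

lemma isClosedEmbedding_ins (s : ℝ) : IsClosedEmbedding (fun y : E n => ins i s y) := by
  simp only [ins_eq]
  exact (Homeomorph.addLeft (s • EuclideanSpace.single i (1:ℝ))).isClosedEmbedding.comp
    (iota i).isometry.isClosedEmbedding

lemma isClosedEmbedding_line (y : E n) : IsClosedEmbedding (fun s : ℝ => ins i s y) := by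
  refine Isometry.isClosedEmbedding ?_
  refine Isometry.of_dist_eq fun a b => ?_
  rw [ins_eq, ins_eq, dist_eq_norm, add_sub_add_right_eq_sub, ← sub_smul, norm_smul,
    Real.dist_eq]
  simp

lemma Tst.continuous {Ω : Set (E N)} {u : E N → ℝ} (hu : Tst Ω u) : Continuous u :=
  hu.smooth.continuous

lemma Tst.integrable {Ω : Set (E N)} {u : E N → ℝ} (hu : Tst Ω u) : Integrable u :=
  hu.continuous.integrable_of_hasCompactSupport hu.cpt

lemma Tst.differentiable {Ω : Set (E N)} {u : E N → ℝ} (hu : Tst Ω u) : Differentiable ℝ u :=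
  hu.smooth.differentiable (by norm_num)

lemma Tst.continuous_grad {Ω : Set (E N)} {u : E N → ℝ} (hu : Tst Ω u) :
    Continuous (gradient u) := FK.continuous_grad hu.smooth

lemma tsupport_gradient_subset (u : E N → ℝ) : tsupport (gradient u) ⊆ tsupport u := by
  refine (closure_mono fun x hx => ?_).trans (tsupport_fderiv_subset ℝ (f := u))
  rw [Function.mem_support] at hx ⊢
  intro h
  apply hx
  rw [gradient, h, map_zero]

lemma Tst.cpt_grad {Ω : Set (E N)} {u : E N → ℝ} (hu : Tst Ω u) :
    HasCompactSupport (gradient u) :=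
  hu.cpt.isCompact.of_isClosed_subset (isClosed_tsupport _) (tsupport_gradient_subset u)

lemma Tst.zero_of_notMem {Ω : Set (E N)} {u : E N → ℝ} (hu : Tst Ω u) {x : E N} (hx : x ∉ Ω) :
    u x = 0 := by
  by_contra h
  exact hx (hu.supp (subset_tsupport u h))

lemma Tst.grad_zero_of_notMem {Ω : Set (E N)} {u : E N → ℝ} (hu : Tst Ω u) {x : E N}
    (hx : x ∉ Ω) : gradient u x = 0 := by
  by_contra h
  exact hx (hu.supp (tsupport_gradient_subset u (subset_tsupport _ h)))

lemma Tst.slice {Ω : Set (E (n + 1))} {u : E (n + 1) → ℝ} (hu : Tst Ω u) (s : ℝ) :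
    Tst {y : E n | ins i s y ∈ Ω} (fun y => u (ins i s y)) where
  smooth := hu.smooth.comp (contDiff_ins i s)
  cpt := hu.cpt.comp_isClosedEmbedding (isClosedEmbedding_ins i s)
  supp := by
    intro y hy
    apply hu.supp
    exact tsupport_comp_subset_preimage u (isClosedEmbedding_ins i s).continuous hy

end Grad

end Pool.Agent.Helper71.FK
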