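import Pool.Agent.Helper71.FK.Defs

open MeasureTheory Metric Set Filter Topology
open scoped ENNReal

namespace Pool.Agent.Helper71.FK

section Tr

variable {A β : ℝ → ℝ} {R : ℝ}

lemma primitive_continuous (hA : Integrable A) : Continuous fun s => ∫ x in Iic s, A x := by
  have h : (fun s => ∫ x in Iic s, A x) = fun s => (∫ x in Iic (0:ℝ), A x) + ∫ x in (0:ℝ)..s, A x := by
    funext s
    rw [← intervalIntegral.integral_Iic_sub_Iic hA.integrableOn hA.integrableOn]
    ring
  rw [h]
  exact continuous_const.add (intervalIntegral.continuous_primitive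
    (fun a b => hA.intervalIntegrable) 0)

lemma primitive_mono (hA : Integrable A) (hA0 : ∀ s, 0 ≤ A s) :
    Monotone fun s => ∫ x in Iic s, A x := by
  intro s t hst
  exact setIntegral_mono_set hA.integrableOn (Eventually.of_forall hA0)
    (Iic_subset_Iic.2 hst).eventuallyLE

lemma primitive_le (hA : Integrable A) (hA0 : ∀ s, 0 ≤ A s) (s : ℝ) :
    ∫ x in Iic s, A x ≤ ∫ x, A x :=
  setIntegral_le_integral hA (Eventually.of_forall hA0)

lemma primitive_nonneg (hA0 : ∀ s, 0 ≤ A s) (s : ℝ) : 0 ≤ ∫ x in Iic s, A x :=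
  setIntegral_nonneg measurableSet_Iic fun x _ => hA0 x

lemma primitive_atTop (hA : Integrable A) :
    Tendsto (fun s => ∫ x in Iic s, A x) atTop (𝓝 (∫ x, A x)) :=
  (aecover_Iic tendsto_id).integral_tendsto_of_countably_generated hA

lemma primitive_atBot (hA : Integrable A) :
    Tendsto (fun s => ∫ x in Iic s, A x) atBot (𝓝 0) := by
  have h : (fun s => ∫ x in Iic s, A x) = fun s => (∫ x, A x) - ∫ x in Ioi s, A x := by
    funext s
    rw [← intervalIntegral.integral_Iic_add_Ioi hA.integrableOn hA.integrableOn (b := s)]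
    ring
  rw [h]
  have := (aecover_Ioi (μ := volume) (a := fun s : ℝ => s) (l := atBot)
    tendsto_id).integral_tendsto_of_countably_generated hA
  simpa using (tendsto_const_nhds (x := ∫ x, A x)).sub this

lemma measure_Iic_ofReal (hA : Integrable A) (hA0 : ∀ s, 0 ≤ A s) (s : ℝ) :
    (volume.withDensity fun s => ENNReal.ofReal (A s)) (Iic s) =
      ENNReal.ofReal (∫ x in Iic s, A x) := by
  rw [withDensity_apply _ measurableSet_Iic,
    ofReal_integral_eq_lintegral_ofReal hA.integrableOn (Eventually.of_forall hA0)]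

/-- M1 -/
theorem exists_transport {A β : ℝ → ℝ} {R : ℝ} (hR : 0 < R) (hAm : Measurable A)
    (hA : Integrable A) (hA0 : ∀ s, 0 ≤ A s) (hβm : Measurable β) (hβ : Integrable β)
    (hβc : ContinuousOn β (Ioo (-R) R)) (hβ0 : ∀ t, 0 ≤ β t)
    (hβp : ∀ t ∈ Ioo (-R) R, 0 < β t) (hβz : ∀ t, t ∉ Ioo (-R) R → β t = 0)
    (hm : ∫ s, A s = ∫ t, β t) :
    ∃ T : ℝ → ℝ, Monotone T ∧ Continuous T ∧ (∀ s, T s ∈ Icc (-R) R) ∧
      (∀ t ∈ Ioo (-R) R, ∃ s, T s = t) ∧
      (∀ s, ∫ x in Iic s, A x = ∫ t in Iic (T s), β t) ∧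
      Measure.map T (volume.withDensity fun s => ENNReal.ofReal (A s)) =
        volume.withDensity (fun t => ENNReal.ofReal (β t)) ∧
      (∀ s s', s ≤ s' → T s ∈ Ioo (-R) R → T s' ∈ Ioo (-R) R →
        IntervalIntegrable (fun x => A x / β (T x)) volume s s' ∧
        T s' - T s = ∫ x in s..s', A x / β (T x)) ∧
      (∀ U : ℝ → ℝ, ContDiff ℝ 1 U → HasCompactSupport U →
        (∀ s ∈ tsupport U, T s ∈ Ioo (-R) R) →
        Integrable (fun s => (A s / β (T s)) * U s) ∧
        ∫ s, T s * deriv U s = - ∫ s, (A s / β (T s)) * U s) := by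
  set F : ℝ → ℝ := fun s => ∫ x in Iic s, A x with hFdef
  set G : ℝ → ℝ := fun s => ∫ x in Iic s, β x with hGdef
  have hFc : Continuous F := primitive_continuous hA
  have hGc : Continuous G := primitive_continuous hβ
  have hFm : Monotone F := primitive_mono hA hA0
  have hGm : Monotone G := primitive_mono hβ hβ0
  have hGlow : ∀ t ≤ -R, G t = 0 := by
    intro t ht
    refine setIntegral_eq_zero_of_forall_eq_zero fun x hx => hβz x fun h => ?_
    have : x ≤ t := hx
    linarith [h.1]
  have hGhigh : ∀ t, R ≤ t → G t = ∫ t, β t := by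
    intro t ht
    have h1 := intervalIntegral.integral_Iic_add_Ioi (b := t) hβ.integrableOn hβ.integrableOn
    have h2 : ∫ x in Ioi t, β x = 0 :=
      setIntegral_eq_zero_of_forall_eq_zero fun x hx => hβz x fun h => by
        have : t < x := hx
        linarith [h.2]
    rw [h2, add_zero] at h1
    exact h1
  have hGsub : ∀ a b, G b - G a = ∫ x in a..b, β x := fun a b =>
    intervalIntegral.integral_Iic_sub_Iic hβ.integrableOn hβ.integrableOn
  have hFsub : ∀ a b, F b - F a = ∫ x in a..b, A x := fun a b =>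
    intervalIntegral.integral_Iic_sub_Iic hA.integrableOn hA.integrableOn
  have hGs : StrictMonoOn G (Icc (-R) R) := by
    intro a ha b hb hab
    have : 0 < ∫ x in a..b, β x := by
      refine intervalIntegral.intervalIntegral_pos_of_pos_on (hβ.intervalIntegrable) ?_ hab
      intro x hx
      exact hβp x ⟨lt_of_le_of_lt ha.1 hx.1, lt_of_lt_of_le hx.2 hb.2⟩
    have := hGsub a b
    linarith
  have hex : ∀ s, ∃ t ∈ Icc (-R) R, G t = F s := by
    intro s
    have h1 : F s ∈ Icc (G (-R)) (G R) := by
      rw [hGlow (-R) le_rfl, hGhigh R le_rfl, ← hm]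
      exact ⟨primitive_nonneg hA0 s, primitive_le hA hA0 s⟩
    obtain ⟨t, ht, hts⟩ := intermediate_value_Icc (by linarith : -R ≤ R) hGc.continuousOn h1
    exact ⟨t, ht, hts⟩
  choose T hTI hTG using hex
  have hTm : Monotone T := by
    intro s s' h
    rw [← hGs.le_iff_le (hTI s) (hTI s'), hTG, hTG]
    exact hFm h
  have hTc : Continuous T := by
    have hemb : IsClosedEmbedding (fun t : Icc (-R) R => G t) :=
      (hGc.comp continuous_subtype_val).isClosedEmbedding
        (fun a b hab => Subtype.ext (hGs.injOn a.2 b.2 hab))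
    have h1 : Continuous fun s => (⟨T s, hTI s⟩ : Icc (-R) R) := by
      rw [hemb.isEmbedding.isInducing.continuous_iff]
      have : ((fun t : Icc (-R) R => G t) ∘ fun s => (⟨T s, hTI s⟩ : Icc (-R) R)) = F := by
        funext s
        exact hTG s
      rw [this]
      exact hFc
    exact continuous_subtype_val.comp h1
  have hsurj : ∀ t ∈ Ioo (-R) R, ∃ s, T s = t := by
    intro t ht
    have htI : t ∈ Icc (-R) R := ⟨ht.1.le, ht.2.le⟩
    have h0 : 0 < G t := by
      have := hGs ⟨le_rfl, by linarith⟩ htI ht.1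
      rwa [hGlow _ le_rfl] at this
    have h1 : G t < ∫ x, A x := by
      have := hGs htI ⟨by linarith, le_rfl⟩ ht.2
      rwa [hGhigh _ le_rfl, ← hm] at this
    obtain ⟨a, ha⟩ := ((primitive_atBot hA).eventually (gt_mem_nhds h0)).exists
    obtain ⟨b, hb⟩ := ((primitive_atTop hA).eventually (lt_mem_nhds h1)).exists
    have hmem : G t ∈ uIcc (F a) (F b) := by
      rw [mem_uIcc]; left; exact ⟨ha.le, hb.le⟩
    obtain ⟨s, -, hs⟩ := intermediate_value_uIcc (hFc.continuousOn (s := uIcc a b)) hmem
    refine ⟨s, hGs.injOn (hTI s) htI ?_⟩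
    rw [hTG, hs]
  set μA : Measure ℝ := volume.withDensity fun s => ENNReal.ofReal (A s) with hμA
  set μβ : Measure ℝ := volume.withDensity fun s => ENNReal.ofReal (β s) with hμβ
  have : IsFiniteMeasure μA := isFiniteMeasure_withDensity_ofReal hA.2
  have : IsFiniteMeasure μβ := isFiniteMeasure_withDensity_ofReal hβ.2
  have hpre : ∀ t, μA (T ⁻¹' Iic t) = ENNReal.ofReal (G t) := by
    intro t
    rcases le_or_gt R t with htR | htR
    · have : T ⁻¹' Iic t = univ := by
        ext s; simp only [mem_preimage, mem_Iic, mem_univ, iff_true]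
        exact (hTI s).2.trans htR
      rw [this, hμA, withDensity_apply _ MeasurableSet.univ, Measure.restrict_univ,
        ← ofReal_integral_eq_lintegral_ofReal hA (Eventually.of_forall hA0), hGhigh t htR, hm]
    · rcases (T ⁻¹' Iic t).eq_empty_or_nonempty with he | hne
      · have htle : t ≤ -R := by
          by_contra h
          push Not at h
          obtain ⟨s, hs⟩ := hsurj t ⟨h, htR⟩
          have : s ∈ T ⁻¹' Iic t := by simp [hs]
          rw [he] at this
          exact this
        rw [he, measure_empty, hGlow t htle, ENNReal.ofReal_zero]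
      · have hbdd : BddAbove (T ⁻¹' Iic t) := by
          obtain ⟨t', ht'⟩ : ∃ t', max t (-R) < t' ∧ t' < R := exists_between (max_lt htR (by linarith))
          obtain ⟨s, hs⟩ := hsurj t' ⟨(le_max_right _ _).trans_lt ht'.1, ht'.2⟩
          refine ⟨s, fun x hx => ?_⟩
          by_contra h
          push Not at h
          have h1 := hTm h.le
          have h2 : T x ≤ t := hx
          have h3 := (le_max_left t (-R)).trans_lt ht'.1
          linarith
        have hclosed : IsClosed (T ⁻¹' Iic t) := isClosed_Iic.preimage hTc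
        set b := sSup (T ⁻¹' Iic t) with hb
        have hbm : b ∈ T ⁻¹' Iic t := hclosed.csSup_mem hne hbdd
        have heq : T ⁻¹' Iic t = Iic b := by
          ext x
          constructor
          · intro hx; exact le_csSup hbdd hx
          · intro hx
            exact (hTm hx).trans hbm
        have hTb : T b = t := by
          refine le_antisymm hbm ?_
          by_contra h
          push Not at h
          have h1 : -R < t := (hTI b).1.trans_lt h
          obtain ⟨s, hs⟩ := hsurj t ⟨h1, htR⟩
          have h2 : s ∈ T ⁻¹' Iic t := by simp [hs]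
          have h3 : s ≤ b := le_csSup hbdd h2
          have := hTm h3
          rw [hs] at this
          linarith
        rw [heq, hμA, measure_Iic_ofReal hA hA0]
        congr 1
        have := hTG b
        rw [hTb] at this
        exact this.symm
  have hmap : Measure.map T μA = μβ := by
    have : IsFiniteMeasure (Measure.map T μA) := Measure.isFiniteMeasure_map μA T
    refine Measure.ext_of_Iic _ _ fun t => ?_
    rw [Measure.map_apply hTc.measurable measurableSet_Iic, hpre, hμβ, measure_Iic_ofReal hβ hβ0]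
  have hnull : ∀ s, μA (T ⁻¹' Iic (T s) \ Iic s) = 0 := by
    intro s
    rw [measure_sdiff (show Iic s ⊆ T ⁻¹' Iic (T s) from fun x hx => hTm hx) measurableSet_Iic.nullMeasurableSet
      (measure_ne_top _ _), hpre, hTG, hμA, measure_Iic_ofReal hA hA0, tsub_self]
  have hAC : ∀ s s', s ≤ s' → T s ∈ Ioo (-R) R → T s' ∈ Ioo (-R) R →
        IntervalIntegrable (fun x => A x / β (T x)) volume s s' ∧
        T s' - T s = ∫ x in s..s', A x / β (T x) := by
    intro s s' hss h1 h2
    have hint : IntervalIntegrable (fun x => A x / β (T x)) volume s s' := by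
      simp only [div_eq_mul_inv]
      refine hA.intervalIntegrable.mul_continuousOn ?_
      have hmaps : ∀ x ∈ uIcc s s', T x ∈ Ioo (-R) R := by
        intro x hx
        rw [uIcc_of_le hss] at hx
        exact ⟨h1.1.trans_le (hTm hx.1), (hTm hx.2).trans_lt h2.2⟩
      refine ContinuousOn.inv₀ (hβc.comp hTc.continuousOn hmaps) fun x hx => ?_
      exact (hβp _ (hmaps x hx)).ne'
    refine ⟨hint, ?_⟩
    rw [intervalIntegral.integral_of_le hss]
    have e1 : ∫ x in Ioc s s', A x / β (T x) = ∫ x in Ioc s s', (β (T x))⁻¹ ∂μA := by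
      rw [hμA, setIntegral_withDensity_eq_setIntegral_toReal_smul
        (by fun_prop) (Eventually.of_forall fun x => ENNReal.ofReal_lt_top) _ measurableSet_Ioc]
      refine setIntegral_congr_fun measurableSet_Ioc fun x _ => ?_
      simp only [smul_eq_mul, ENNReal.toReal_ofReal (hA0 x), div_eq_mul_inv]
    have e2 : ∫ x in Ioc s s', (β (T x))⁻¹ ∂μA = ∫ x in T ⁻¹' Ioc (T s) (T s'), (β (T x))⁻¹ ∂μA := by
      refine setIntegral_congr_set ?_
      rw [ae_eq_set]
      constructor
      · refine measure_mono_null (fun x hx => ?_) (hnull s)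
        obtain ⟨hx1, hx2⟩ := hx
        have h3 : T x ≤ T s := by
          by_contra h
          push Not at h
          exact hx2 ⟨h, hTm hx1.2⟩
        exact ⟨h3, fun h => absurd hx1.1 (not_lt.2 h)⟩
      · refine measure_mono_null (fun x hx => ?_) (hnull s')
        obtain ⟨hx1, hx2⟩ := hx
        refine ⟨hx1.2, fun h => hx2 ⟨?_, h⟩⟩
        by_contra h4
        push Not at h4
        exact absurd hx1.1 (not_lt.2 (hTm h4))
    have e3 : ∫ x in T ⁻¹' Ioc (T s) (T s'), (β (T x))⁻¹ ∂μA =
        ∫ t in Ioc (T s) (T s'), (β t)⁻¹ ∂μβ := by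
      rw [← hmap, setIntegral_map measurableSet_Ioc _ hTc.measurable.aemeasurable]
      exact hβm.inv.aestronglyMeasurable
    have e4 : ∫ t in Ioc (T s) (T s'), (β t)⁻¹ ∂μβ = T s' - T s := by
      rw [hμβ, setIntegral_withDensity_eq_setIntegral_toReal_smul
        (by fun_prop) (Eventually.of_forall fun x => ENNReal.ofReal_lt_top) _ measurableSet_Ioc]
      have : ∀ t ∈ Ioc (T s) (T s'), (ENNReal.ofReal (β t)).toReal • (β t)⁻¹ = 1 := by
        intro t ht
        have : 0 < β t := hβp t ⟨h1.1.trans ht.1, ht.2.trans_lt h2.2⟩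
        rw [ENNReal.toReal_ofReal this.le, smul_eq_mul, mul_inv_cancel₀ this.ne']
      rw [setIntegral_congr_fun measurableSet_Ioc this]
      simp [hTm hss]
    rw [e1, e2, e3, e4]
  refine ⟨T, hTm, hTc, hTI, hsurj, fun s => (hTG s).symm, hmap, hAC, ?_⟩
  intro U hU hUc hUT
  rcases (tsupport U).eq_empty_or_nonempty with he | hne
  · have hU0 : U = 0 := tsupport_eq_empty_iff.1 he
    subst hU0
    simp
  obtain ⟨a, ha, haT⟩ : ∃ a, (∀ x ∈ tsupport U, a < x) ∧ T a ∈ Ioo (-R) R := by
    have hm := hUc.isCompact.sInf_mem hne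
    have hop : IsOpen (T ⁻¹' Ioo (-R) R) := isOpen_Ioo.preimage hTc
    obtain ⟨ε, hε, hb⟩ := Metric.isOpen_iff.1 hop _ (hUT _ hm)
    refine ⟨sInf (tsupport U) - ε / 2, fun x hx => ?_, hb ?_⟩
    · have := csInf_le hUc.isCompact.bddBelow hx
      linarith
    · rw [mem_ball, Real.dist_eq]
      rw [show sInf (tsupport U) - ε / 2 - sInf (tsupport U) = -(ε / 2) by ring, abs_neg,
        abs_of_pos (by linarith)]
      linarith
  obtain ⟨b, hb, hbT⟩ : ∃ b, (∀ x ∈ tsupport U, x < b) ∧ T b ∈ Ioo (-R) R := by
    have hm := hUc.isCompact.sSup_mem hne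
    have hop : IsOpen (T ⁻¹' Ioo (-R) R) := isOpen_Ioo.preimage hTc
    obtain ⟨ε, hε, hb⟩ := Metric.isOpen_iff.1 hop _ (hUT _ hm)
    refine ⟨sSup (tsupport U) + ε / 2, fun x hx => ?_, hb ?_⟩
    · have := le_csSup hUc.isCompact.bddAbove hx
      linarith
    · rw [mem_ball, Real.dist_eq]
      rw [show sSup (tsupport U) + ε / 2 - sSup (tsupport U) = (ε / 2) by ring,
        abs_of_pos (by linarith)]
      linarith
  obtain ⟨x0, hx0⟩ := hne
  have hab : a ≤ b := ((ha x0 hx0).trans (hb x0 hx0)).le
  have hUz : ∀ x, x ∉ Ioc a b → U x = 0 := by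
    intro x hx
    by_contra h
    have : x ∈ tsupport U := subset_tsupport U h
    exact hx ⟨ha x this, (hb x this).le⟩
  have hUz' : ∀ x, x ∉ Ioc a b → deriv U x = 0 := by
    intro x hx
    by_contra h
    have : x ∈ tsupport U := by
      have h1 : x ∈ tsupport (deriv U) := subset_tsupport _ h
      exact tsupport_deriv_subset (𝕜 := ℝ) h1
    exact hx ⟨ha x this, (hb x this).le⟩
  have hUa : U a = 0 := hUz a fun h => lt_irrefl _ h.1
  have hUb : U b = 0 := by
    by_contra h
    exact lt_irrefl _ (hb b (subset_tsupport U h))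
  obtain ⟨hli, -⟩ := hAC a b hab haT hbT
  have hT_eq : ∀ x ∈ Icc a b, T x = T a + ∫ y in a..x, A y / β (T y) := by
    intro x hx
    have h1 := (hAC a x hx.1 haT ⟨haT.1.trans_le (hTm hx.1), (hTm hx.2).trans_lt hbT.2⟩).2
    linarith
  set lam : ℝ → ℝ := fun y => A y / β (T y) with hlam
  have hint2 : IntervalIntegrable (fun x => lam x * U x) volume a b :=
    hli.mul_continuousOn hU.continuous.continuousOn
  constructor
  · have h1 : IntegrableOn (fun x => lam x * U x) (Ioc a b) :=
      (intervalIntegrable_iff_integrableOn_Ioc_of_le hab).1 hint2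
    have h2 := (integrable_indicator_iff measurableSet_Ioc).2 h1
    refine h2.congr (Eventually.of_forall fun x => ?_)
    by_cases hx : x ∈ Ioc a b
    · simp [indicator_of_mem hx, hlam]
    · simp [indicator_of_notMem hx, hUz x hx]
  have e1 : ∫ s, T s * deriv U s = ∫ s in a..b, T s * deriv U s := by
    rw [intervalIntegral.integral_of_le hab]
    exact (setIntegral_eq_integral_of_forall_compl_eq_zero fun x hx => by simp [hUz' x hx]).symm
  have e2 : ∫ s, lam s * U s = ∫ s in a..b, lam s * U s := by
    rw [intervalIntegral.integral_of_le hab]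
    exact (setIntegral_eq_integral_of_forall_compl_eq_zero fun x hx => by simp [hUz x hx]).symm
  rw [e1, e2]
  set Φ : ℝ → ℝ := fun x => ∫ y in a..x, lam y with hΦ
  have hΦac : AbsolutelyContinuousOnInterval Φ a b :=
    hli.absolutelyContinuousOnInterval_intervalIntegral (left_mem_uIcc)
  have hUac : AbsolutelyContinuousOnInterval U a b :=
    hU.contDiffOn.absolutelyContinuousOnInterval
  have hibp := hΦac.integral_mul_deriv_eq_deriv_mul hUac
  rw [hUa, hUb, mul_zero, mul_zero, sub_zero, zero_sub] at hibp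
  have hder : ∫ x in a..b, deriv Φ x * U x = ∫ x in a..b, lam x * U x := by
    refine intervalIntegral.integral_congr_ae ?_
    filter_upwards [hli.ae_hasDerivAt_integral] with x hx hxm
    rw [(hx (uIoc_subset_uIcc hxm) a left_mem_uIcc).deriv]
  rw [hder] at hibp
  have hd1 : ∫ x in a..b, deriv U x = 0 := by
    rw [intervalIntegral.integral_deriv_eq_sub (fun x _ => (hU.differentiable (by norm_num)) x)
      ((hU.continuous_deriv le_rfl).intervalIntegrable _ _), hUa, hUb, sub_zero]
  calc ∫ s in a..b, T s * deriv U s = ∫ s in a..b, (T a * deriv U s + Φ s * deriv U s) := by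
        refine intervalIntegral.integral_congr fun x hx => ?_
        rw [uIcc_of_le hab] at hx
        rw [hT_eq x hx]; ring
    _ = T a * (∫ s in a..b, deriv U s) + ∫ s in a..b, Φ s * deriv U s := by
        rw [intervalIntegral.integral_add, intervalIntegral.integral_const_mul]
        · exact (continuous_const.mul (hU.continuous_deriv le_rfl)).intervalIntegrable _ _
        · exact ((hU.continuous_deriv le_rfl).intervalIntegrable _ _).continuousOn_mul
            hΦac.continuousOn
    _ = - ∫ s in a..b, lam s * U s := by rw [hd1, hibp]; ring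

end Tr

end Pool.Agent.Helper71.FK
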